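import Mathlib

set_option autoImplicit false

namespace Pool.Agent.Y729.HT

/-- The edges of `H` with exactly one endpoint in `A`. -/
def edgeBoundary {V : Type*} (H : SimpleGraph V) (A : Set V) : Set (Sym2 V) :=
  {e | ∃ u v, u ∈ A ∧ v ∉ A ∧ H.Adj u v ∧ e = s(u, v)}

/-- The Cheeger (edge-isoperimetric) constant of `H`: the infimum of `|∂_E A| / |A|` over the
finite nonempty sets `A` of vertices. -/
noncomputable def cheeger {V : Type*} (H : SimpleGraph V) : ENNReal :=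
  ⨅ (A : Finset V) (_ : A.Nonempty),
    (((edgeBoundary H (A : Set V)).encard : ℕ∞) : ENNReal) / (A.card : ENNReal)

/-- `S` is a `k`-net of `G`: it is maximal under inclusion among the sets whose points are
pairwise at distance at least `k`. -/
def IsNet {V : Type*} (G : SimpleGraph V) (k : ℕ) (S : Set V) : Prop :=
  Maximal (fun T : Set V => ∀ x ∈ T, ∀ y ∈ T, x ≠ y → k ≤ G.dist x y) S

/-- The `k`-net graph: the vertex set is `S`, and `u ≠ v` are adjacent iff `d_G(u,v) ≤ 2k`. -/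
def netGraph {V : Type*} (G : SimpleGraph V) (k : ℕ) (S : Set V) : SimpleGraph S where
  Adj u v := u ≠ v ∧ G.dist (u : V) (v : V) ≤ 2 * k
  symm := ⟨fun u v h => ⟨h.1.symm, by rw [SimpleGraph.dist_comm]; exact h.2⟩⟩
  loopless := ⟨fun u h => h.1 rfl⟩

/-- The parameters of the construction. -/
structure Pm where
  b : ℕ
  p : ℕ
  r : ℕ
  N : ℕ
  hb : 2 ≤ b
  hp : 1 ≤ p
  hr : r ≤ p
  hN : 2 * p + 1 ≤ N
  hpow : b ^ (p + 1) ≤ (b + 1) ^ p

/-! ### Arithmetic of the parent map -/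

/-- the first child -/
def lowc (n0 n1 x : ℕ) : ℕ := (x * n1 + n0 - 1) / n0

theorem lowc_ge {n0 n1 x : ℕ} (h0 : 0 < n0) : x * n1 ≤ lowc n0 n1 x * n0 := by
  unfold lowc
  have h1 := Nat.div_add_mod (x * n1 + n0 - 1) n0
  have h2 := Nat.mod_lt (x * n1 + n0 - 1) h0
  have h3 : n0 * ((x * n1 + n0 - 1) / n0) = (x * n1 + n0 - 1) / n0 * n0 := mul_comm _ _
  omega

theorem lowc_lt {n0 n1 x : ℕ} (h0 : 0 < n0) : lowc n0 n1 x * n0 < x * n1 + n0 := by
  unfold lowc
  have h1 := Nat.div_mul_le_self (x * n1 + n0 - 1) n0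
  omega

theorem low_par {n0 n1 x t b : ℕ} (h0 : 0 < n0) (h1 : b * n0 ≤ n1) (ht : t < b) :
    (lowc n0 n1 x + t) * n0 / n1 = x := by
  have e1 := lowc_ge (n0 := n0) (n1 := n1) (x := x) h0
  have e2 := lowc_lt (n0 := n0) (n1 := n1) (x := x) h0
  have e3 : (t + 1) * n0 ≤ b * n0 := Nat.mul_le_mul_right _ ht
  apply Nat.div_eq_of_lt_le
  · rw [add_mul]; omega
  · rw [add_mul, add_mul]
    rw [add_mul] at e3
    omega

theorem le_of_par {n0 n1 x y : ℕ} (h0 : 0 < n0) (h : y * n0 / n1 = x) :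
    lowc n0 n1 x ≤ y := by
  have e2 := lowc_lt (n0 := n0) (n1 := n1) (x := x) h0
  have e3 : x * n1 ≤ y * n0 := by
    rw [← h]; exact Nat.div_mul_le_self _ _
  have e4 : lowc n0 n1 x * n0 < (y + 1) * n0 := by rw [add_mul]; omega
  have := Nat.lt_of_mul_lt_mul_right e4
  omega

theorem lt_of_par {n0 n1 x y c : ℕ} (h0 : 0 < n0) (h1 : 0 < n1) (h2 : n1 ≤ c * n0)
    (h : y * n0 / n1 = x) : y < lowc n0 n1 x + c := by
  have e1 := lowc_ge (n0 := n0) (n1 := n1) (x := x) h0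
  have e3 : y * n0 < (x + 1) * n1 := by
    rw [← h, mul_comm (y * n0 / n1 + 1) n1]
    exact Nat.lt_mul_div_succ _ h1
  have e4 : y * n0 < (lowc n0 n1 x + c) * n0 := by
    rw [add_mul] at e3 ⊢
    omega
  exact Nat.lt_of_mul_lt_mul_right e4

theorem valid_child {n0 n1 x y K : ℕ} (h0 : 0 < n0) (h1 : 0 < n1) (h : y * n0 / n1 = x)
    (hx : x < K * n0) : y < K * n1 := by
  have e3 : y * n0 < (x + 1) * n1 := by
    rw [← h, mul_comm (y * n0 / n1 + 1) n1]
    exact Nat.lt_mul_div_succ _ h1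
  have e4 : (x + 1) * n1 ≤ (K * n0) * n1 := Nat.mul_le_mul_right _ hx
  have e5 : (K * n0) * n1 = (K * n1) * n0 := by ring
  exact Nat.lt_of_mul_lt_mul_right (a := n0) (by omega)

theorem valid_par {n0 n1 y K : ℕ} (h0 : 0 < n0) (hy : y < K * n1) :
    y * n0 / n1 < K * n0 := by
  apply Nat.div_lt_of_lt_mul
  have : y * n0 < K * n1 * n0 := Nat.mul_lt_mul_of_pos_right hy h0
  calc y * n0 < K * n1 * n0 := this
    _ = n1 * (K * n0) := by ring

namespace Pm
variable (P : Pm)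

/-- the size index of the hub trees with index `i` -/
def m (i : ℕ) : ℕ := min i (2 * P.N)
/-- their depth -/
def D (i : ℕ) : ℕ := P.p * P.m i
/-- the level of the base vertices to which they are attached -/
def L (i : ℕ) : ℕ := (P.p + 1) * i + P.r
/-- the number of vertices of depth `j` in a hub tree -/
def n (i j : ℕ) : ℕ := min ((P.b + 1) ^ j) (P.b ^ (P.m i + j))
/-- the number of hub trees of index `i` -/
def q (i : ℕ) : ℕ := P.b ^ ((P.p + 1) * (i - P.m i))

theorem b_pos : 0 < P.b := by have := P.hb; omega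

theorem n_pos (i j : ℕ) : 0 < P.n i j := by
  unfold n
  have := P.b_pos
  exact lt_min (by positivity) (by positivity)

theorem n_low (i j : ℕ) : P.b * P.n i j ≤ P.n i (j + 1) := by
  unfold n
  apply le_min
  · calc P.b * min ((P.b + 1) ^ j) (P.b ^ (P.m i + j)) ≤ P.b * (P.b + 1) ^ j :=
        Nat.mul_le_mul_left _ (min_le_left _ _)
      _ ≤ (P.b + 1) * (P.b + 1) ^ j := Nat.mul_le_mul_right _ (by omega)
      _ = (P.b + 1) ^ (j + 1) := by ring
  · calc P.b * min ((P.b + 1) ^ j) (P.b ^ (P.m i + j)) ≤ P.b * P.b ^ (P.m i + j) :=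
        Nat.mul_le_mul_left _ (min_le_right _ _)
      _ = P.b ^ (P.m i + (j + 1)) := by ring

theorem n_up (i j : ℕ) : P.n i (j + 1) ≤ (P.b + 1) * P.n i j := by
  unfold n
  rw [← Nat.mul_min_mul_left]
  apply min_le_min
  · exact le_of_eq (by ring)
  · calc P.b ^ (P.m i + (j + 1)) = P.b * P.b ^ (P.m i + j) := by ring
      _ ≤ (P.b + 1) * P.b ^ (P.m i + j) := Nat.mul_le_mul_right _ (by omega)

theorem n_zero (i : ℕ) : P.n i 0 = 1 := by
  unfold n
  have := P.b_pos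
  rw [pow_zero]
  exact min_eq_left (Nat.one_le_pow _ _ this)

theorem n_D (i : ℕ) : P.n i (P.D i) = P.b ^ ((P.p + 1) * P.m i) := by
  unfold n D
  have e : P.m i + P.p * P.m i = (P.p + 1) * P.m i := by ring
  rw [e]
  apply min_eq_right
  rw [pow_mul, pow_mul]
  exact Nat.pow_le_pow_left P.hpow _

theorem m_le (i : ℕ) : P.m i ≤ i := min_le_left _ _

theorem q_n_D (i : ℕ) : P.q i * P.n i (P.D i) = P.b ^ ((P.p + 1) * i) := by
  rw [n_D, q, ← pow_add, ← mul_add]
  congr 2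
  have := P.m_le i
  omega

theorem D_small {i : ℕ} (h : i ≤ 2 * P.N) : P.D i = P.p * i := by
  unfold D m; rw [min_eq_left h]

theorem D_big {i : ℕ} (h : 2 * P.N ≤ i) : P.D i = 2 * (P.p * P.N) := by
  unfold D m; rw [min_eq_right h]; ring

theorem D_le (i : ℕ) : P.D i ≤ 2 * (P.p * P.N) := by
  unfold D m
  calc P.p * min i (2 * P.N) ≤ P.p * (2 * P.N) := Nat.mul_le_mul_left _ (min_le_right _ _)
    _ = _ := by ring

theorem D_ge {i : ℕ} (h : P.N ≤ i) : P.p * P.N ≤ P.D i := by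
  unfold D m
  exact Nat.mul_le_mul_left _ (le_min h (by omega))

theorem D_ge' {i : ℕ} (h : P.N + 1 ≤ i) : P.p * P.N + P.p ≤ P.D i := by
  unfold D m
  have := P.hN
  calc P.p * P.N + P.p = P.p * (P.N + 1) := by ring
    _ ≤ _ := Nat.mul_le_mul_left _ (le_min h (by omega))

theorem q_small {i : ℕ} (h : i ≤ 2 * P.N) : P.q i = 1 := by
  unfold q m
  rw [min_eq_left h, Nat.sub_self, mul_zero, pow_zero]

theorem q_big {i : ℕ} (h : 2 * P.N ≤ i) : P.q i = P.b ^ ((P.p + 1) * (i - 2 * P.N)) := by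
  unfold q m
  rw [min_eq_right h]

end Pm

/-- Vertices: `i = 0` for base vertices (of level `j`), `i ≥ N` for vertices of depth `j` in
hub trees. -/
@[ext] structure Vx (P : Pm) where
  i : ℕ
  j : ℕ
  x : ℕ
  hv : (i = 0 ∧ x < P.b ^ j) ∨ (P.N ≤ i ∧ 0 < i ∧ j < P.D i ∧ x < P.q i * P.n i j)

variable {P : Pm}

/-- `u` is a parent of `v` -/
def Par (u v : Vx P) : Prop :=
  (u.i = 0 ∧ v.i = 0 ∧ v.j = u.j + 1 ∧ v.x / P.b = u.x) ∨
  (0 < u.i ∧ v.i = u.i ∧ v.j = u.j + 1 ∧ v.x * P.n u.i u.j / P.n u.i (u.j + 1) = u.x) ∨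
  (0 < u.i ∧ v.i = 0 ∧ u.j + 1 = P.D u.i ∧ v.j = P.L u.i ∧ v.x % P.b ^ P.r = 0 ∧
    v.x / P.b ^ P.r * P.n u.i u.j / P.n u.i (u.j + 1) = u.x)

theorem par_irrefl (u : Vx P) : ¬ Par u u := by
  unfold Par
  omega

/-- the graph -/
def G (P : Pm) : SimpleGraph (Vx P) where
  Adj u v := Par u v ∨ Par v u
  symm := ⟨fun u v h => h.symm⟩
  loopless := ⟨fun u h => par_irrefl u (h.elim id id)⟩

/-- the children -/
def ch (u : Vx P) (t : ℕ) (ht : t < P.b) : Vx P :=
  if h0 : u.i = 0 then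
    ⟨0, u.j + 1, P.b * u.x + t, by
      left
      have h2 := P.b_pos
      have h3 : u.x < P.b ^ u.j := by
        rcases u.hv with h | h
        · exact h.2
        · omega
      refine ⟨rfl, ?_⟩
      calc P.b * u.x + t < P.b * u.x + P.b := by omega
        _ = P.b * (u.x + 1) := by ring
        _ ≤ P.b * P.b ^ u.j := Nat.mul_le_mul_left _ h3
        _ = P.b ^ (u.j + 1) := by ring⟩
  else if h1 : u.j + 1 < P.D u.i then
    ⟨u.i, u.j + 1, lowc (P.n u.i u.j) (P.n u.i (u.j + 1)) u.x + t, by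
      right
      rcases u.hv with h | h
      · omega
      · exact ⟨h.1, h.2.1, h1, valid_child (P.n_pos _ _) (P.n_pos _ _)
          (low_par (P.n_pos _ _) (P.n_low _ _) ht) h.2.2.2⟩⟩
  else
    ⟨0, P.L u.i, (lowc (P.n u.i u.j) (P.n u.i (u.j + 1)) u.x + t) * P.b ^ P.r, by
      left
      rcases u.hv with h | h
      · omega
      · have h4 : u.j + 1 = P.D u.i := by omega
        have h5 := valid_child (P.n_pos _ _) (P.n_pos _ _)
          (low_par (x := u.x) (P.n_pos u.i u.j) (P.n_low _ _) ht) h.2.2.2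
        have h6 : P.q u.i * P.n u.i (u.j + 1) = P.b ^ ((P.p + 1) * u.i) := by
          rw [h4, P.q_n_D]
        rw [h6] at h5
        refine ⟨rfl, ?_⟩
        have h7 := P.b_pos
        unfold Pm.L
        rw [pow_add]
        exact Nat.mul_lt_mul_of_pos_right h5 (by positivity)⟩

theorem par_ch (u : Vx P) (t : ℕ) (ht : t < P.b) : Par u (ch u t ht) := by
  have hb := P.b_pos
  unfold ch Par
  split_ifs with h0 h1
  · left
    refine ⟨h0, rfl, rfl, ?_⟩
    show (P.b * u.x + t) / P.b = u.x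
    rw [Nat.mul_add_div hb, Nat.div_eq_of_lt ht, add_zero]
  · right; left
    refine ⟨by omega, rfl, rfl, ?_⟩
    exact low_par (P.n_pos _ _) (P.n_low _ _) ht
  · right; right
    have h2 := u.hv
    refine ⟨by omega, rfl, by omega, rfl, ?_, ?_⟩
    · exact Nat.mul_mod_left _ _
    · show (_ * P.b ^ P.r) / P.b ^ P.r * _ / _ = u.x
      rw [Nat.mul_div_cancel _ (by positivity)]
      exact low_par (P.n_pos _ _) (P.n_low _ _) ht

theorem ch_inj (u : Vx P) (s t : ℕ) (hs : s < P.b) (ht : t < P.b) (h : ch u s hs = ch u t ht) :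
    s = t := by
  have h' := congrArg Vx.x h
  have hb := P.b_pos
  unfold ch at h'
  split_ifs at h' with h0 h1
  · simpa using h'
  · simpa using h'
  · have h'' : (lowc (P.n u.i u.j) (P.n u.i (u.j + 1)) u.x + s) * P.b ^ P.r =
      (lowc (P.n u.i u.j) (P.n u.i (u.j + 1)) u.x + t) * P.b ^ P.r := h'
    have h2 := Nat.eq_of_mul_eq_mul_right (by positivity) h''
    omega

theorem adj_ch (u : Vx P) (t : ℕ) (ht : t < P.b) : (G P).Adj u (ch u t ht) :=
  Or.inl (par_ch u t ht)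

theorem par_unique {u u' c : Vx P} (h : Par u c) (h' : Par u' c) (h0 : u.i = 0 ↔ u'.i = 0) :
    u = u' := by
  have e1 := u.hv
  have e2 := u'.hv
  rcases h with ⟨a1, a2, a3, a4⟩ | ⟨a1, a2, a3, a4⟩ | ⟨a1, a2, a3, a4, a5, a6⟩ <;>
    rcases h' with ⟨b1, b2, b3, b4⟩ | ⟨b1, b2, b3, b4⟩ | ⟨b1, b2, b3, b4, b5, b6⟩
  · exact Vx.ext (by omega) (by omega) (by omega)
  · omega
  · omega
  · omega
  · have hi : u.i = u'.i := by omega
    have hj : u.j = u'.j := by omega
    refine Vx.ext hi hj ?_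
    rw [← a4, ← b4, hi, hj]
  · omega
  · omega
  · omega
  · have hi : u.i = u'.i := by
      rw [a4] at b4
      unfold Pm.L at b4
      have : (P.p + 1) * u.i = (P.p + 1) * u'.i := by omega
      exact Nat.eq_of_mul_eq_mul_left (by omega) this
    have hj : u.j = u'.j := by
      rw [hi] at a3
      omega
    refine Vx.ext hi hj ?_
    rw [← a6, ← b6, hi, hj]

theorem pow_dvd_eq {a b m : ℕ} (ha : a % m = 0) (hb : b % m = 0) (h : a / m = b / m) :
    a = b := by
  rw [← Nat.div_add_mod a m, ← Nat.div_add_mod b m, ha, hb, h]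

end Pool.Agent.Y729.HT
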