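import Pool.Agent.Y729.HT.A

set_option autoImplicit false

namespace Pool.Agent.Y729.HT

variable {P : Pm}

/-! ### Degrees -/

theorem base_child_unique {u c c' : Vx P} (hu : u.i = 0) (h : Par u c) (h' : Par u c')
    (h0 : c.x % P.b = c'.x % P.b) : c = c' := by
  rcases h with ⟨a1, a2, a3, a4⟩ | ⟨a1, a2, a3, a4⟩ | ⟨a1, a2, a3, a4, a5, a6⟩ <;>
    rcases h' with ⟨b1, b2, b3, b4⟩ | ⟨b1, b2, b3, b4⟩ | ⟨b1, b2, b3, b4, b5, b6⟩ <;>
    try omega
  refine Vx.ext (by omega) (by omega) ?_
  rw [← Nat.div_add_mod c.x P.b, ← Nat.div_add_mod c'.x P.b, a4, b4, h0]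

open Classical in
/-- position of a child of a hub vertex -/
noncomputable def pos (v : Vx P) : ℕ := if v.i = 0 then v.x / P.b ^ P.r else v.x

theorem pos_mem {u c : Vx P} (hu : 0 < u.i) (h : Par u c) :
    lowc (P.n u.i u.j) (P.n u.i (u.j + 1)) u.x ≤ pos c ∧
      pos c < lowc (P.n u.i u.j) (P.n u.i (u.j + 1)) u.x + (P.b + 1) := by
  rcases h with ⟨a1, a2, a3, a4⟩ | ⟨a1, a2, a3, a4⟩ | ⟨a1, a2, a3, a4, a5, a6⟩
  · omega
  · unfold pos
    rw [if_neg (by omega)]
    exact ⟨le_of_par (P.n_pos _ _) a4, lt_of_par (P.n_pos _ _) (P.n_pos _ _) (P.n_up _ _) a4⟩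
  · unfold pos
    rw [if_pos a2]
    exact ⟨le_of_par (P.n_pos _ _) a6, lt_of_par (P.n_pos _ _) (P.n_pos _ _) (P.n_up _ _) a6⟩

theorem hub_child_unique {u c c' : Vx P} (hu : 0 < u.i) (h : Par u c) (h' : Par u c')
    (h0 : pos c = pos c') : c = c' := by
  have e := c.hv
  have e' := c'.hv
  rcases h with ⟨a1, a2, a3, a4⟩ | ⟨a1, a2, a3, a4⟩ | ⟨a1, a2, a3, a4, a5, a6⟩ <;>
    rcases h' with ⟨b1, b2, b3, b4⟩ | ⟨b1, b2, b3, b4⟩ | ⟨b1, b2, b3, b4, b5, b6⟩ <;>
    try omega
  · unfold pos at h0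
    rw [if_neg (by omega), if_neg (by omega)] at h0
    exact Vx.ext (by omega) (by omega) h0
  · exfalso
    rw [a2] at e
    omega
  · exfalso
    rw [b2] at e'
    omega
  · unfold pos at h0
    rw [if_pos a2, if_pos b2] at h0
    exact Vx.ext (by omega) (by omega) (pow_dvd_eq a5 b5 h0)

theorem degree_le (u : Vx P) : ((G P).neighborSet u).encard ≤ (P.b + 2 : ℕ) := by
  classical
  have hsub : (G P).neighborSet u ⊆ {v | Par u v} ∪ {v | Par v u} := by
    intro v hv
    exact hv
  refine (Set.encard_le_encard hsub).trans ((Set.encard_union_le _ _).trans ?_)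
  by_cases hu : u.i = 0
  · have h1 : ({v | Par u v} : Set (Vx P)).encard ≤ P.b := by
      have := Set.encard_le_encard_of_injOn (s := {v : Vx P | Par u v})
        (t := ((Finset.range P.b : Finset ℕ) : Set ℕ)) (f := fun v => v.x % P.b)
        (fun v _ => by simpa using Nat.mod_lt _ P.b_pos)
        (fun v hv w hw h => base_child_unique hu hv hw h)
      rwa [Set.encard_coe_eq_coe_finsetCard, Finset.card_range] at this
    have h2 : ({v | Par v u} : Set (Vx P)).encard ≤ 2 := by
      have := Set.encard_le_encard_of_injOn (s := {v : Vx P | Par v u})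
        (t := ((Finset.univ : Finset Bool) : Set Bool)) (f := fun v => decide (v.i = 0))
        (fun v _ => Finset.mem_coe.2 (Finset.mem_univ _))
        (fun v hv w hw h => par_unique hv hw (by simpa using h))
      rwa [Set.encard_coe_eq_coe_finsetCard, Finset.card_univ, Fintype.card_bool] at this
    calc _ ≤ (P.b : ℕ∞) + 2 := add_le_add h1 h2
      _ = _ := by push_cast; rfl
  · have h1 : ({v | Par u v} : Set (Vx P)).encard ≤ (P.b + 1 : ℕ) := by
      have := Set.encard_le_encard_of_injOn (s := {v : Vx P | Par u v})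
        (t := ((Finset.Ico (lowc (P.n u.i u.j) (P.n u.i (u.j + 1)) u.x)
          (lowc (P.n u.i u.j) (P.n u.i (u.j + 1)) u.x + (P.b + 1)) : Finset ℕ) : Set ℕ))
        (f := fun v => pos v)
        (fun v hv => by
          rw [Finset.mem_coe, Finset.mem_Ico]
          exact pos_mem (by omega) hv)
        (fun v hv w hw h => hub_child_unique (by omega) hv hw h)
      rwa [Set.encard_coe_eq_coe_finsetCard, Nat.card_Ico, Nat.add_sub_cancel_left] at this
    have h2 : ({v | Par v u} : Set (Vx P)).encard ≤ 1 := by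
      rw [Set.encard_le_one_iff]
      intro v w hv hw
      apply par_unique hv hw
      have hv' : Par v u := hv
      have hw' : Par w u := hw
      unfold Par at hv' hw'
      omega
    calc _ ≤ ((P.b + 1 : ℕ) : ℕ∞) + 1 := add_le_add h1 h2
      _ = _ := by push_cast; ring

/-! ### Base ancestors -/

/-- the base ancestor `s` levels above the base vertex `v` -/
def anc (v : Vx P) (hv : v.i = 0) (s : ℕ) (hs : s ≤ v.j) : Vx P :=
  ⟨0, v.j - s, v.x / P.b ^ s, by
    left
    refine ⟨rfl, ?_⟩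
    have h1 : v.x < P.b ^ v.j := by
      rcases v.hv with h | h
      · exact h.2
      · omega
    apply Nat.div_lt_of_lt_mul
    rw [← pow_add]
    rwa [Nat.add_sub_cancel' hs]⟩

theorem anc_par (v : Vx P) (hv : v.i = 0) (s : ℕ) (hs : s + 1 ≤ v.j) :
    Par (anc v hv (s + 1) hs) (anc v hv s (by omega)) := by
  left
  refine ⟨rfl, rfl, ?_, ?_⟩
  · show v.j - s = v.j - (s + 1) + 1
    omega
  · show v.x / P.b ^ s / P.b = v.x / P.b ^ (s + 1)
    rw [Nat.div_div_eq_div_mul, pow_succ]

theorem anc_zero (v : Vx P) (hv : v.i = 0) : anc v hv 0 (Nat.zero_le _) = v := by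
  apply Vx.ext
  · exact hv.symm
  · rfl
  · show v.x / P.b ^ 0 = v.x
    simp

end Pool.Agent.Y729.HT
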