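import Pool.Agent.Y729.HT.B

set_option autoImplicit false

namespace Pool.Agent.Y729.HT

variable {P : Pm}

theorem mul_add_inj {p a b s t : ℕ} (hs : s ≤ p) (ht : t ≤ p)
    (h : (p + 1) * a + s = (p + 1) * b + t) : a = b ∧ s = t := by
  have h1 : ((p + 1) * a + s) % (p + 1) = s := by
    rw [Nat.mul_add_mod]; exact Nat.mod_eq_of_lt (by omega)
  have h2 : ((p + 1) * b + t) % (p + 1) = t := by
    rw [Nat.mul_add_mod]; exact Nat.mod_eq_of_lt (by omega)
  have h3 : s = t := by rw [← h1, ← h2, h]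
  subst h3
  exact ⟨Nat.eq_of_mul_eq_mul_left (by omega) (by omega : (p + 1) * a = (p + 1) * b), rfl⟩

/-- base vertices which may have two parents -/
def Dbl (v : Vx P) : Prop := v.i = 0 ∧ v.x % P.b ^ P.r = 0 ∧ ∃ i, v.j = (P.p + 1) * i + P.r

open Classical in
/-- the ancestor, as a total function -/
noncomputable def ancT (v : Vx P) (s : ℕ) : Vx P :=
  if h : v.i = 0 ∧ s ≤ v.j then anc v h.1 s h.2 else v

theorem ancT_eq {v : Vx P} {s : ℕ} (h : v.i = 0) (hs : s ≤ v.j) : ancT v s = anc v h s hs := by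
  unfold ancT
  rw [dif_pos ⟨h, hs⟩]

theorem ancT_inj {v w : Vx P} {s t : ℕ} (hv : Dbl v) (hw : Dbl w) (hs : s ≤ P.r) (ht : t ≤ P.r)
    (h : ancT v s = ancT w t) : v = w ∧ s = t := by
  obtain ⟨v0, v1, i, v2⟩ := hv
  obtain ⟨w0, w1, i', w2⟩ := hw
  rw [ancT_eq v0 (by omega), ancT_eq w0 (by omega)] at h
  have hj : v.j - s = w.j - t := congrArg Vx.j h
  have hx : v.x / P.b ^ s = w.x / P.b ^ t := congrArg Vx.x h
  have hr := P.hr
  obtain ⟨e1, e2⟩ := mul_add_inj (p := P.p) (a := i) (b := i') (s := t) (t := s)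
    (by omega) (by omega) (by omega)
  subst e1
  subst e2
  refine ⟨Vx.ext (by omega) (by omega) ?_, rfl⟩
  apply pow_dvd_eq v1 w1
  have e3 : P.b ^ P.r = P.b ^ t * P.b ^ (P.r - t) := by
    rw [← pow_add]; congr 1; omega
  rw [e3, ← Nat.div_div_eq_div_mul, ← Nat.div_div_eq_div_mul, hx]

theorem boundary_ge (A : Finset (Vx P)) :
    ∃ M : ℕ, (M : ℕ∞) ≤ (edgeBoundary (G P) (A : Set (Vx P))).encard ∧
      (P.r + 1) * (P.b * A.card) ≤ (P.r + 1) * M + (P.r + 1) * A.card + A.card := by
  classical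
  set Q := A ×ˢ (Finset.univ : Finset (Fin P.b)) with hQ
  have hQc : Q.card = P.b * A.card := by
    rw [hQ, Finset.card_product, Finset.card_univ, Fintype.card_fin, mul_comm]
  set c : Vx P × Fin P.b → Vx P := fun p => ch p.1 p.2.1 p.2.2 with hc
  have hcp : ∀ p, Par p.1 (c p) := fun p => par_ch _ _ _
  have hci : ∀ p q, c p = c q → (p.1.i = 0 ↔ q.1.i = 0) → p = q := by
    rintro ⟨u, s⟩ ⟨u', s'⟩ h h'
    have e1 : u = u' := par_unique (hcp (u, s)) (h ▸ hcp (u', s')) h'
    subst e1
    have e2 := ch_inj u _ _ _ _ h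
    exact Prod.ext rfl (Fin.ext e2)
  set Q1 := Q.filter (fun p => c p ∈ A) with hQ1
  set Q2 := Q.filter (fun p => c p ∉ A) with hQ2
  have hsum : Q1.card + Q2.card = Q.card := Finset.card_filter_add_card_filter_not _
  set Bp : Vx P → Prop := fun v => ∃ u ∈ A, u.i = 0 ∧ Par u v with hBp
  set Hp : Vx P → Prop := fun v => ∃ u ∈ A, 0 < u.i ∧ Par u v with hHp
  set X := A.filter (fun v => Bp v ∧ Hp v) with hX
  set Y := A.filter (fun v => ¬ (Bp v ∨ Hp v)) with hY
  have h1 : Q1.card + Y.card ≤ A.card + X.card := by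
    have a1 : (Q1.filter (fun p => p.1.i = 0)).card ≤ (A.filter Bp).card := by
      apply Finset.card_le_card_of_injOn c
      · intro p hp
        simp only [hQ1, hQ, Finset.coe_filter, Finset.mem_filter, Finset.mem_product,
          Set.mem_ofPred_eq] at hp
        simp only [Finset.coe_filter, Set.mem_ofPred_eq]
        exact ⟨hp.1.2, p.1, hp.1.1.1, hp.2, hcp p⟩
      · intro p hp q hq h
        simp only [Finset.coe_filter, Set.mem_ofPred_eq] at hp hq
        exact hci p q h (by rw [hp.2, hq.2])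
    have a2 : (Q1.filter (fun p => ¬ p.1.i = 0)).card ≤ (A.filter Hp).card := by
      apply Finset.card_le_card_of_injOn c
      · intro p hp
        simp only [hQ1, hQ, Finset.coe_filter, Finset.mem_filter, Finset.mem_product,
          Set.mem_ofPred_eq] at hp
        simp only [Finset.coe_filter, Set.mem_ofPred_eq]
        exact ⟨hp.1.2, p.1, hp.1.1.1, by omega, hcp p⟩
      · intro p hp q hq h
        simp only [Finset.coe_filter, Set.mem_ofPred_eq] at hp hq
        exact hci p q h ⟨fun h => absurd h hp.2, fun h => absurd h hq.2⟩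
    have a3 : (Q1.filter (fun p => p.1.i = 0)).card + (Q1.filter (fun p => ¬ p.1.i = 0)).card =
      Q1.card := Finset.card_filter_add_card_filter_not _
    have a4 : (A.filter (fun v => Bp v ∨ Hp v)).card + Y.card = A.card :=
      Finset.card_filter_add_card_filter_not _
    have a5 := Finset.card_union_add_card_inter (A.filter Bp) (A.filter Hp)
    rw [← Finset.filter_or, ← Finset.filter_and] at a5
    have a6 : (A.filter (fun v => Bp v ∧ Hp v)).card = X.card := rfl
    omega
  -- the vertices with two parents in `A`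
  have hXp : ∀ v ∈ X, Dbl v := by
    intro v hv
    rw [hX, Finset.mem_filter] at hv
    obtain ⟨-, ⟨u, -, hu0, hu⟩, ⟨w, -, hw0, hw⟩⟩ := hv
    have hv0 : v.i = 0 := by
      unfold Par at hu
      omega
    rcases hw with ⟨b1, b2, b3, b4⟩ | ⟨b1, b2, b3, b4⟩ | ⟨b1, b2, b3, b4, b5, b6⟩
    · omega
    · omega
    · exact ⟨hv0, b5, w.i, b4⟩
  have hr := P.hr
  set X1 := X.filter (fun v => ∀ s ≤ P.r, ancT v s ∈ A) with hX1
  set X2 := X.filter (fun v => ¬ ∀ s ≤ P.r, ancT v s ∈ A) with hX2
  have hX12 : X1.card + X2.card = X.card := Finset.card_filter_add_card_filter_not _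
  have h2 : (P.r + 1) * X1.card ≤ A.card := by
    have := Finset.card_le_card_of_injOn (s := X1 ×ˢ Finset.range (P.r + 1)) (t := A)
      (fun p => ancT p.1 p.2) ?_ ?_
    · rwa [Finset.card_product, Finset.card_range, mul_comm] at this
    · rintro ⟨v, s⟩ hp
      simp only [Finset.coe_product, Set.mem_prod, Finset.mem_coe, Finset.mem_range] at hp
      have h := (Finset.mem_filter.1 hp.1).2
      exact h s (by omega)
    · rintro ⟨v, s⟩ hp ⟨w, t⟩ hq h
      simp only [Finset.coe_product, Set.mem_prod, Finset.mem_coe, Finset.mem_range] at hp hq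
      have e := ancT_inj (hXp v (Finset.mem_filter.1 hp.1).1) (hXp w (Finset.mem_filter.1 hq.1).1)
        (by omega) (by omega) h
      exact Prod.ext e.1 e.2
  have h3 : X2.card ≤ Y.card := by
    have key : ∀ v ∈ X2, ∃ s, s ≤ P.r ∧ ancT v s ∈ Y := by
      intro v hv
      have hvX := (Finset.mem_filter.1 hv).1
      have hvn := (Finset.mem_filter.1 hv).2
      obtain ⟨v0, v1, i, v2⟩ := hXp v hvX
      push Not at hvn
      obtain ⟨s0, hs0, hs1⟩ := hvn
      have hex : ∃ s, ancT v s ∉ A := ⟨s0, hs1⟩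
      set s := Nat.find hex with hs
      have hsn : ancT v s ∉ A := Nat.find_spec hex
      have hmin : ∀ t < s, ancT v t ∈ A := fun t ht => by
        by_contra h
        exact Nat.find_min hex ht h
      have hsr : s ≤ P.r := (Nat.find_min' hex hs1).trans hs0
      have hvA := (Finset.mem_filter.1 hvX).1
      have hs2 : s ≠ 0 := by
        intro h
        apply hsn
        rw [h, ancT_eq v0 (by omega), anc_zero]
        exact hvA
      obtain ⟨t, ht⟩ : ∃ t, s = t + 1 := ⟨s - 1, by omega⟩
      rw [ht] at hsn hmin hsr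
      have hpar := anc_par v v0 t (by omega)
      have htA := hmin t (by omega)
      refine ⟨t, by omega, ?_⟩
      have hnB : ¬ Bp (ancT v t) := by
        rintro ⟨u, huA, hu0, hu⟩
        rw [ancT_eq v0 (by omega)] at hu
        have e := par_unique hu hpar ⟨fun _ => rfl, fun _ => hu0⟩
        apply hsn
        rw [ancT_eq v0 (by omega), ← e]
        exact huA
      have hnH : ¬ Hp (ancT v t) := by
        rintro ⟨u, huA, hu0, hu⟩
        by_cases ht0 : t = 0
        · apply hnB
          subst ht0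
          rw [ancT_eq v0 (by omega), anc_zero]
          exact (Finset.mem_filter.1 hvX).2.1
        · rw [ancT_eq v0 (by omega)] at hu
          rcases hu with ⟨b1, b2, b3, b4⟩ | ⟨b1, b2, b3, b4⟩ | ⟨b1, b2, b3, b4, b5, b6⟩
          · omega
          · have : (0 : ℕ) = u.i := b2
            omega
          · have e : v.j - t = (P.p + 1) * u.i + P.r := b4
            have := mul_add_inj (p := P.p) (a := i) (b := u.i) (s := 0) (t := t)
              (by omega) (by omega) (by omega)
            omega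
      rw [hY, Finset.mem_filter]
      exact ⟨htA, fun h => h.elim hnB hnH⟩
    choose! g hg1 hg2 using key
    apply Finset.card_le_card_of_injOn (fun v => ancT v (g v))
    · intro v hv
      exact hg2 v hv
    · intro v hv w hw h
      exact (ancT_inj (hXp v (Finset.mem_filter.1 hv).1) (hXp w (Finset.mem_filter.1 hw).1)
        (hg1 v hv) (hg1 w hw) h).1
  refine ⟨Q2.card, ?_, ?_⟩
  · have h3 := Set.encard_le_encard_of_injOn (s := (Q2 : Set (Vx P × Fin P.b)))
      (t := edgeBoundary (G P) (A : Set (Vx P))) (f := fun p => s(p.1, c p)) ?_ ?_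
    · rw [Set.encard_coe_eq_coe_finsetCard] at h3
      exact h3
    · intro p hp
      simp only [hQ2, hQ, Finset.coe_filter, Set.mem_ofPred_eq, Finset.mem_product] at hp
      exact ⟨p.1, c p, hp.1.1, by simpa using hp.2, Or.inl (hcp p), rfl⟩
    · intro p hp q hq hpq
      simp only [hQ2, hQ, Finset.coe_filter, Set.mem_ofPred_eq, Finset.mem_product] at hp hq
      rcases Sym2.eq_iff.mp hpq with ⟨e1, e2⟩ | ⟨e1, e2⟩
      · exact hci p q e2 (by rw [e1])
      · exfalso
        apply hq.2
        rw [← e1]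
        exact hp.1.1
  · have h4 : (P.r + 1) * Q1.card + (P.r + 1) * Y.card ≤
        (P.r + 1) * A.card + (P.r + 1) * X.card := by
      rw [← mul_add, ← mul_add]
      exact Nat.mul_le_mul_left _ h1
    have h5 : (P.r + 1) * X2.card ≤ (P.r + 1) * Y.card := Nat.mul_le_mul_left _ h3
    have h6 : (P.r + 1) * X1.card + (P.r + 1) * X2.card = (P.r + 1) * X.card := by
      rw [← mul_add, hX12]
    have h7 : (P.r + 1) * Q1.card + (P.r + 1) * Q2.card = (P.r + 1) * (P.b * A.card) := by
      rw [← mul_add, hsum, hQc]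
    omega

theorem cheeger_ge (c : ENNReal)
    (hc : c * ((P.r + 1 : ℕ) : ENNReal) + ((P.r + 1 : ℕ) : ENNReal) + 1 ≤
      ((P.r + 1 : ℕ) : ENNReal) * (P.b : ENNReal)) : c ≤ cheeger (G P) := by
  unfold cheeger
  refine le_iInf₂ fun A hA => ?_
  have hA0 : (A.card : ENNReal) ≠ 0 := by
    exact_mod_cast (Finset.card_pos.mpr hA).ne'
  rw [ENNReal.le_div_iff_mul_le (Or.inl hA0) (Or.inl (ENNReal.natCast_ne_top _))]
  obtain ⟨M, hM1, hM2⟩ := boundary_ge A
  have h1 : (M : ENNReal) ≤ (((edgeBoundary (G P) (A : Set (Vx P))).encard : ℕ∞) : ENNReal) := by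
    exact_mod_cast hM1
  refine le_trans ?_ h1
  have h2 : ((P.r + 1 : ℕ) : ENNReal) * (P.b * A.card) ≤
      (P.r + 1 : ℕ) * M + (P.r + 1 : ℕ) * A.card + A.card := by
    exact_mod_cast hM2
  set R : ENNReal := ((P.r + 1 : ℕ) : ENNReal) with hR
  have hR0 : R ≠ 0 := by
    rw [hR]; exact_mod_cast Nat.succ_ne_zero P.r
  have hRt : R ≠ ⊤ := ENNReal.natCast_ne_top _
  set a : ENNReal := (A.card : ENNReal) with ha
  have hat : a ≠ ⊤ := ENNReal.natCast_ne_top _
  have h3 : (c * R + R + 1) * a ≤ R * P.b * a := mul_le_mul_left hc a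
  have h4 : c * a * R + (R * a + a) ≤ M * R + (R * a + a) := by
    calc c * a * R + (R * a + a) = (c * R + R + 1) * a := by ring
      _ ≤ R * P.b * a := h3
      _ = R * (P.b * a) := by ring
      _ ≤ R * M + R * a + a := h2
      _ = M * R + (R * a + a) := by ring
  have h5 : c * a * R ≤ M * R := by
    refine (ENNReal.add_le_add_iff_right ?_).1 h4
    exact ENNReal.add_ne_top.2 ⟨ENNReal.mul_ne_top hRt hat, hat⟩
  exact (ENNReal.mul_le_mul_iff_left hR0 hRt).1 h5

end Pool.Agent.Y729.HT
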