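import Pool.Agent.Y729.HT.A

set_option autoImplicit false

namespace Pool.Agent.Y729.HT

/-- `f h d k`: the infimum of the Cheeger constants of the `k`-net graphs of the infinite connected
graphs with Cheeger constant larger than `h` and all degrees smaller than `d`. -/
noncomputable def f (h : ENNReal) (d k : ℕ) : ENNReal :=
  ⨅ (V : Type) (G : SimpleGraph V) (S : Set V) (_ : Infinite V) (_ : G.Connected)
    (_ : h < cheeger G) (_ : ∀ v, (G.neighborSet v).encard < d) (_ : IsNet G k S),
    cheeger (netGraph G k S)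

theorem grow {V : Type*} [Infinite V] {G : SimpleGraph V} (hG : G.Connected) {d : ℕ}
    (hd : ∀ v, (G.neighborSet v).encard < d) (m : ℕ) :
    ∃ A : Finset V, A.card = m + 1 ∧
      (edgeBoundary G (A : Set V)).encard + (3 * (m + 1) : ℕ) ≤ (d * (m + 1) + 2 : ℕ) := by
  classical
  induction m with
  | zero =>
    obtain ⟨v⟩ := hG.nonempty
    refine ⟨{v}, by simp, ?_⟩
    have h1 : edgeBoundary G (({v} : Finset V) : Set V) ⊆ (fun w => s(v, w)) '' G.neighborSet v := by
      rintro e ⟨u, w, hu, hw, hadj, rfl⟩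
      have : u = v := by simpa using hu
      subst this
      exact ⟨w, hadj, rfl⟩
    have h2 := (Set.encard_le_encard h1).trans (Set.encard_image_le _ _)
    have h3 : (G.neighborSet v).encard + 1 ≤ d := Order.add_one_le_of_lt (hd v)
    calc (edgeBoundary G (({v} : Finset V) : Set V)).encard + (3 * (0 + 1) : ℕ)
        ≤ (G.neighborSet v).encard + (3 * (0 + 1) : ℕ) := add_le_add_left h2 _
      _ = ((G.neighborSet v).encard + 1) + 2 := by push_cast; ring
      _ ≤ d + 2 := add_le_add_left h3 _
      _ = _ := by push_cast; ring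
  | succ m ih =>
    obtain ⟨A, hA, hb⟩ := ih
    obtain ⟨a, ha⟩ : A.Nonempty := by rw [← Finset.card_pos]; omega
    obtain ⟨w, hw⟩ := Infinite.exists_notMem_finset A
    obtain ⟨q⟩ := hG.preconnected a w
    obtain ⟨dd, -, hd1, hd2⟩ := q.exists_boundary_dart (A : Set V) ha hw
    have hadj : G.Adj dd.fst dd.snd := dd.adj
    set u := dd.fst with hu
    set v := dd.snd with hv
    have hvA : v ∉ A := hd2
    refine ⟨insert v A, by rw [Finset.card_insert_of_notMem hvA, hA], ?_⟩
    have hmem : s(u, v) ∈ edgeBoundary G (A : Set V) := ⟨u, v, hd1, hd2, hadj, rfl⟩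
    have hsub : edgeBoundary G ((insert v A : Finset V) : Set V) ⊆
        (edgeBoundary G (A : Set V) \ {s(u, v)}) ∪
          (fun w => s(v, w)) '' (G.neighborSet v \ {u}) := by
      rintro e ⟨x, y, hx, hy, hxy, rfl⟩
      have hyv : y ≠ v := fun h => hy (by rw [h]; simp)
      have hyA : y ∉ (A : Set V) := fun h => hy (by simp; exact Or.inr h)
      by_cases hxv : x = v
      · right
        subst hxv
        refine ⟨y, ⟨hxy, ?_⟩, rfl⟩
        rintro rfl
        exact hyA hd1
      · left
        have hxA : x ∈ (A : Set V) := by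
          rcases Finset.mem_insert.1 (Finset.mem_coe.1 hx) with h | h
          · exact absurd h hxv
          · exact h
        refine ⟨⟨x, y, hxA, hyA, hxy, rfl⟩, ?_⟩
        intro h
        rcases Sym2.eq_iff.mp h with ⟨h1, h2⟩ | ⟨h1, h2⟩
        · exact hyv h2
        · exact hxv h1
    have e1 : (edgeBoundary G (A : Set V) \ {s(u, v)}).encard + 1 =
        (edgeBoundary G (A : Set V)).encard := Set.encard_diff_singleton_add_one hmem
    have e2 : (G.neighborSet v \ {u}).encard + 1 = (G.neighborSet v).encard :=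
      Set.encard_diff_singleton_add_one hadj.symm
    have e3 : (G.neighborSet v).encard + 1 ≤ d := Order.add_one_le_of_lt (hd v)
    have e4 : (edgeBoundary G ((insert v A : Finset V) : Set V)).encard ≤
        (edgeBoundary G (A : Set V) \ {s(u, v)}).encard + (G.neighborSet v \ {u}).encard :=
      (Set.encard_le_encard hsub).trans ((Set.encard_union_le _ _).trans
        (add_le_add_right (Set.encard_image_le _ _) _))
    calc (edgeBoundary G ((insert v A : Finset V) : Set V)).encard + (3 * (m + 1 + 1) : ℕ)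
        ≤ (edgeBoundary G (A : Set V) \ {s(u, v)}).encard + (G.neighborSet v \ {u}).encard +
          (3 * (m + 1 + 1) : ℕ) := add_le_add_left e4 _
      _ = ((edgeBoundary G (A : Set V) \ {s(u, v)}).encard + 1) +
          (((G.neighborSet v \ {u}).encard + 1) + 1) + (3 * (m + 1) : ℕ) := by
            push_cast; ring
      _ ≤ (edgeBoundary G (A : Set V)).encard + d + (3 * (m + 1) : ℕ) := by
            rw [e1, e2]; gcongr
      _ = ((edgeBoundary G (A : Set V)).encard + (3 * (m + 1) : ℕ)) + d := by ring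
      _ ≤ (d * (m + 1) + 2 : ℕ) + d := add_le_add_left hb _
      _ = _ := by push_cast; ring

/-- An infinite connected graph with all degrees smaller than `d` has Cheeger constant at most
`d - 3`. -/
theorem cheeger_le {V : Type*} [Infinite V] {G : SimpleGraph V} (hG : G.Connected) {d : ℕ}
    (hd : ∀ v, (G.neighborSet v).encard < d) (h : ENNReal) (hh : (d : ENNReal) ≤ h + 3) :
    cheeger G ≤ h := by
  by_cases htop : h = ⊤
  · rw [htop]; exact le_top
  have key : ∀ m : ℕ, cheeger G ≤ h + 2 / ((m + 1 : ℕ) : ENNReal) := by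
    intro m
    obtain ⟨A, hA, hb⟩ := grow hG hd m
    have hne : A.Nonempty := by rw [← Finset.card_pos]; omega
    unfold cheeger
    refine (iInf₂_le A hne).trans ?_
    rw [hA]
    set M : ENNReal := ((m + 1 : ℕ) : ENNReal) with hM
    have hM0 : M ≠ 0 := by rw [hM]; exact_mod_cast Nat.succ_ne_zero m
    have hMt : M ≠ ⊤ := ENNReal.natCast_ne_top _
    have h1 : (((edgeBoundary G (A : Set V)).encard : ℕ∞) : ENNReal) + 3 * M ≤ d * M + 2 := by
      have := hb
      have h2 : (((edgeBoundary G (A : Set V)).encard + (3 * (m + 1) : ℕ) : ℕ∞) : ENNReal) ≤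
          (((d * (m + 1) + 2 : ℕ) : ℕ∞) : ENNReal) := by exact_mod_cast this
      rw [hM]
      push_cast at h2 ⊢
      exact h2
    have h3 : (((edgeBoundary G (A : Set V)).encard : ℕ∞) : ENNReal) + 3 * M ≤
        (h * M + 2) + 3 * M := by
      refine h1.trans ?_
      calc (d : ENNReal) * M + 2 ≤ (h + 3) * M + 2 := by gcongr
        _ = _ := by ring
    have h4 : (((edgeBoundary G (A : Set V)).encard : ℕ∞) : ENNReal) ≤ h * M + 2 :=
      (ENNReal.add_le_add_iff_right (ENNReal.mul_ne_top (by norm_num) hMt)).1 h3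
    calc (((edgeBoundary G (A : Set V)).encard : ℕ∞) : ENNReal) / M ≤ (h * M + 2) / M :=
          ENNReal.div_le_div_right h4 _
      _ = h * M / M + 2 / M := ENNReal.add_div
      _ = h + 2 / M := by rw [ENNReal.mul_div_cancel_right hM0 hMt]
  have hlim : Filter.Tendsto (fun m : ℕ => h + 2 / ((m + 1 : ℕ) : ENNReal)) Filter.atTop
      (nhds (h + 0)) := by
    apply Filter.Tendsto.add tendsto_const_nhds
    have := ENNReal.Tendsto.const_div (a := (2 : ENNReal)) (b := ⊤)
      ((Filter.tendsto_add_atTop_iff_nat 1).2 ENNReal.tendsto_nat_nhds_top) (Or.inr (by norm_num))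
    simpa using this
  rw [add_zero] at hlim
  exact ge_of_tendsto' hlim key

theorem f_eq_top (h : ENNReal) (d : ℕ) (hh : (d : ENNReal) ≤ h + 3) (k : ℕ) : f h d k = ⊤ := by
  unfold f
  simp only [iInf_eq_top]
  intro V G S hV hG hc hd hS
  exact absurd (cheeger_le hG hd h hh) (not_le.2 hc)

theorem f_inf_zero (h : ENNReal) (d : ℕ)
    (H : ∀ ε : ENNReal, 0 < ε → ∃ (k : ℕ) (V : Type) (G : SimpleGraph V) (S : Set V),
      1 ≤ k ∧ Infinite V ∧ G.Connected ∧ (∀ v, (G.neighborSet v).encard < d) ∧
      h < cheeger G ∧ IsNet G k S ∧ cheeger (netGraph G k S) < ε) :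
    (⨅ (k : ℕ) (_ : 1 ≤ k), f h d k) = 0 := by
  by_contra hne
  have hpos : 0 < ⨅ (k : ℕ) (_ : 1 ≤ k), f h d k := pos_iff_ne_zero.2 hne
  obtain ⟨k, V, G', S', hk, hV, hc, hd, hch, hnet, hlt⟩ := H _ hpos
  have h1 : (⨅ (k : ℕ) (_ : 1 ≤ k), f h d k) ≤ f h d k := iInf₂_le k hk
  have h2 : f h d k ≤ cheeger (netGraph G' k S') := by
    unfold f
    refine (iInf_le _ V).trans ((iInf_le _ G').trans ((iInf_le _ S').trans ((iInf_le _ hV).trans
      ((iInf_le _ hc).trans ((iInf_le _ hch).trans ((iInf_le _ hd).trans (iInf_le _ hnet)))))))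
  exact absurd (h1.trans h2) (not_le.2 hlt)

end Pool.Agent.Y729.HT
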