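import Pool.Agent.Y729.HT.B

set_option autoImplicit false

namespace Pool.Agent.Y729.HT

variable {P : Pm}

/-! ### Paths upwards, connectedness -/

/-- the root of the base tree -/
def rt (P : Pm) : Vx P := ⟨0, 0, 0, Or.inl ⟨rfl, by simp⟩⟩

theorem reach_root (v : Vx P) (h : v.i = 0) : ∃ p : (G P).Walk (rt P) v, p.length = v.j := by
  induction hl : v.j using Nat.strong_induction_on generalizing v with
  | _ l ih =>
    rcases Nat.eq_zero_or_pos v.j with h2 | h2
    · have h4 := v.hv
      have h6 : v.x = 0 := by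
        rw [h2, pow_zero] at h4
        omega
      have h7 : v = rt P := Vx.ext h h2 h6
      subst h7
      exact ⟨SimpleGraph.Walk.nil, by rw [← hl]; rfl⟩
    · have hp := anc_par v h 0 (by omega)
      rw [anc_zero] at hp
      obtain ⟨q, hq⟩ := ih (v.j - 1) (by omega) (anc v h 1 (by omega)) rfl rfl
      have hadj : (G P).Adj (anc v h 1 (by omega)) v := Or.inl hp
      refine ⟨q.concat hadj, ?_⟩
      rw [SimpleGraph.Walk.length_concat]
      omega

theorem reach_down (v : Vx P) : ∃ w : Vx P, w.i = 0 ∧ (G P).Reachable v w := by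
  induction hl : P.D v.i - v.j using Nat.strong_induction_on generalizing v with
  | _ m ih =>
    by_cases h0 : v.i = 0
    · exact ⟨v, h0, SimpleGraph.Reachable.refl _⟩
    · by_cases h1 : (ch v 0 P.b_pos).i = 0
      · exact ⟨ch v 0 P.b_pos, h1, (adj_ch v 0 P.b_pos).reachable⟩
      · have h2 := par_ch v 0 P.b_pos
        have h3 := v.hv
        rcases h2 with ⟨b1, b2, b3, b4⟩ | ⟨b1, b2, b3, b4⟩ | ⟨b1, b2, b3, b4, b5, b6⟩
        · omega
        · obtain ⟨w, hw, hr⟩ := ih (P.D (ch v 0 P.b_pos).i - (ch v 0 P.b_pos).j)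
            (by rw [b2, b3]; omega) (ch v 0 P.b_pos) rfl
          exact ⟨w, hw, (adj_ch v 0 P.b_pos).reachable.trans hr⟩
        · omega

theorem connected : (G P).Connected := by
  have key : ∀ v, (G P).Reachable (rt P) v := by
    intro v
    obtain ⟨w, hw, hr⟩ := reach_down v
    obtain ⟨p, -⟩ := reach_root w hw
    exact p.reachable.trans hr.symm
  have : Nonempty (Vx P) := ⟨rt P⟩
  exact ⟨fun u v => (key u).symm.trans (key v)⟩

theorem infinite : Infinite (Vx P) := by
  have hb := P.b_pos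
  refine Infinite.of_injective
    (fun j : ℕ => (⟨0, j, 0, Or.inl ⟨rfl, by positivity⟩⟩ : Vx P)) ?_
  intro a b h
  exact congrArg Vx.j h

/-! ### The net -/

/-- the net: the root of the base tree and the roots of the hub trees -/
def S (P : Pm) : Set (Vx P) := {v | (v.i = 0 ∧ v.j = 0) ∨ (0 < v.i ∧ v.j = 0)}

theorem dist_anc (v : Vx P) (h : v.i = 0) (s : ℕ) (hs : s ≤ v.j) :
    (G P).dist (anc v h s hs) v ≤ s := by
  induction s with
  | zero =>
    rw [anc_zero, SimpleGraph.dist_self]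
  | succ s ih =>
    have h1 := ih (by omega)
    have h2 : (G P).dist (anc v h (s + 1) hs) (anc v h s (by omega)) = 1 :=
      SimpleGraph.dist_eq_one_iff_adj.2 (Or.inl (anc_par v h s hs))
    have h3 := connected.dist_triangle (u := anc v h (s + 1) hs) (v := anc v h s (by omega))
      (w := v)
    omega

theorem exists_hub_parent (v : Vx P) (h : 0 < v.i) (hl : 0 < v.j) :
    ∃ p : Vx P, Par p v ∧ p.i = v.i ∧ p.j + 1 = v.j := by
  obtain ⟨t, ht⟩ : ∃ t, v.j = t + 1 := ⟨v.j - 1, by omega⟩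
  have h3 : P.N ≤ v.i ∧ 0 < v.i ∧ v.j < P.D v.i ∧ v.x < P.q v.i * P.n v.i v.j := by
    rcases v.hv with h' | h'
    · omega
    · exact h'
  refine ⟨⟨v.i, t, v.x * P.n v.i t / P.n v.i (t + 1), Or.inr ⟨h3.1, h, by omega, ?_⟩⟩,
    Or.inr (Or.inl ⟨h, rfl, ht, rfl⟩), rfl, ht.symm⟩
  rw [ht] at h3
  exact valid_par (P.n_pos _ _) h3.2.2.2

theorem exists_hub_above (v : Vx P) (h : v.i = 0) (i : ℕ) (hi : P.N ≤ i)
    (hl : v.j = P.L i) (hx : v.x % P.b ^ P.r = 0) :
    ∃ p : Vx P, Par p v ∧ p.i = i ∧ p.j + 1 = P.D i := by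
  have hN := P.hN
  have hp := P.hp
  have hDpos : 0 < P.D i := by
    have h1 := P.D_ge hi
    have h2 : 0 < P.p * P.N := Nat.mul_pos (by omega) (by omega)
    omega
  obtain ⟨t, ht⟩ : ∃ t, P.D i = t + 1 := ⟨P.D i - 1, by omega⟩
  refine ⟨⟨i, t, v.x / P.b ^ P.r * P.n i t / P.n i (t + 1),
    Or.inr ⟨hi, by omega, by omega, ?_⟩⟩,
    Or.inr (Or.inr ⟨?_, h, ?_, hl, hx, rfl⟩), rfl, ht.symm⟩
  · apply valid_par (P.n_pos _ _)
    rw [← ht, P.q_n_D]
    have h1 : v.x < P.b ^ v.j := by
      rcases v.hv with h' | h'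
      · exact h'.2
      · omega
    apply Nat.div_lt_of_lt_mul
    rw [← pow_add]
    rw [hl, Pm.L] at h1
    rw [add_comm P.r]
    exact h1
  · show 0 < i
    omega
  · show t + 1 = P.D i
    exact ht.symm

theorem hub_root (v : Vx P) (h : 0 < v.i) :
    ∃ s ∈ S P, 0 < s.i ∧ s.i = v.i ∧ (G P).dist s v ≤ v.j := by
  induction hl : v.j using Nat.strong_induction_on generalizing v with
  | _ l ih =>
    by_cases h1 : 0 < v.j
    · obtain ⟨p, hp, hpi, hpl⟩ := exists_hub_parent v h h1
      obtain ⟨s, hs, hs0, hsi, hd⟩ := ih p.j (by omega) p (by omega) rfl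
      refine ⟨s, hs, hs0, by omega, ?_⟩
      have h4 := connected.dist_triangle (u := s) (v := p) (w := v)
      have h5 : (G P).dist p v = 1 := SimpleGraph.dist_eq_one_iff_adj.2 (Or.inl hp)
      omega
    · refine ⟨v, Or.inr ⟨h, by omega⟩, h, rfl, ?_⟩
      rw [SimpleGraph.dist_self]
      omega

/-- going down `r` levels in the base tree, to a vertex divisible by `b ^ r` -/
theorem down (v : Vx P) (h : v.i = 0) (s : ℕ) :
    ∃ w : Vx P, w.i = 0 ∧ w.j = v.j + s ∧ w.x = v.x * P.b ^ s ∧ (G P).dist v w ≤ s := by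
  induction s with
  | zero =>
    exact ⟨v, h, rfl, by simp, by rw [SimpleGraph.dist_self]⟩
  | succ s ih =>
    obtain ⟨w, hw, hj, hx, hd⟩ := ih
    have hb := P.b_pos
    have hpar := par_ch w 0 hb
    refine ⟨ch w 0 hb, ?_, ?_, ?_, ?_⟩
    · unfold ch; rw [dif_pos hw]
    · unfold ch; rw [dif_pos hw]
      show w.j + 1 = _
      omega
    · unfold ch; rw [dif_pos hw]
      show P.b * w.x + 0 = _
      rw [hx]; ring
    · have h4 := connected.dist_triangle (u := v) (v := w) (w := ch w 0 hb)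
      have h5 : (G P).dist w (ch w 0 hb) = 1 := SimpleGraph.dist_eq_one_iff_adj.2 (Or.inl hpar)
      omega

theorem cover (v : Vx P) :
    ∃ s ∈ S P, (G P).dist s v ≤ 2 * (P.p * P.N) + 2 * P.p := by
  have hr := P.hr
  have hN := P.hN
  have hp := P.hp
  by_cases h0 : v.i = 0
  · rcases Nat.lt_or_ge v.j ((P.p + 1) * P.N) with h1 | h1
    · obtain ⟨q, hq⟩ := reach_root v h0
      refine ⟨rt P, Or.inl ⟨rfl, rfl⟩, (SimpleGraph.dist_le q).trans ?_⟩
      have h2 : P.N ≤ P.p * P.N := Nat.le_mul_of_pos_left _ hp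
      have h3 : (P.p + 1) * P.N = P.p * P.N + P.N := by ring
      omega
    · set i := v.j / (P.p + 1) with hi
      have h2 := Nat.div_add_mod v.j (P.p + 1)
      have h3 := Nat.mod_lt v.j (Nat.succ_pos P.p)
      rw [← hi] at h2
      have h4 : P.N ≤ i := by
        rw [hi, Nat.le_div_iff_mul_le (by omega)]
        rw [mul_comm]; exact h1
      set s := v.j % (P.p + 1) with hs
      have h3' : s < P.p + 1 := h3
      have hsj : s ≤ v.j := by omega
      obtain ⟨w, hw0, hwj, hwx, hwd⟩ := down (anc v h0 s hsj) rfl P.r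
      have hb := P.b_pos
      obtain ⟨y, hy1, hy2, hy3⟩ := exists_hub_above w hw0 i h4 (by
        rw [hwj]
        show v.j - s + P.r = P.L i
        unfold Pm.L
        omega) (by rw [hwx]; exact Nat.mul_mod_left _ _)
      obtain ⟨z, hz, hz0, hzi, hzd⟩ := hub_root y (by omega)
      refine ⟨z, hz, ?_⟩
      have d1 := connected.dist_triangle (u := z) (v := y) (w := v)
      have d2 := connected.dist_triangle (u := y) (v := w) (w := v)
      have d3 := connected.dist_triangle (u := w) (v := anc v h0 s hsj) (w := v)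
      have d4 : (G P).dist y w = 1 := SimpleGraph.dist_eq_one_iff_adj.2 (Or.inl hy1)
      have d5 := dist_anc v h0 s hsj
      rw [SimpleGraph.dist_comm] at hwd
      have d6 := P.D_le i
      omega
  · obtain ⟨s, hs, -, hsi, hd⟩ := hub_root v (by omega)
    have h1 := P.D_le v.i
    have h2 := v.hv
    exact ⟨s, hs, by omega⟩

/-! ### Lower bounds for distances -/

theorem lip {V : Type*} {H : SimpleGraph V} (hc : H.Connected) (g : V → ℕ)
    (hg : ∀ u v, H.Adj u v → g v ≤ g u + 1) (u v : V) : g v ≤ g u + H.dist u v := by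
  obtain ⟨p, hp⟩ := hc.exists_walk_length_eq_dist u v
  rw [← hp]
  clear hp
  induction p with
  | nil => simp
  | cons h q ih =>
    rw [SimpleGraph.Walk.length_cons]
    have := hg _ _ h
    omega

/-- `v` is in the hub tree with root `s` -/
def Mt (s v : Vx P) : Prop := v.i = s.i ∧ v.x / P.n v.i v.j = s.x

open Classical in
/-- a lower bound for the distance to the hub root `s` -/
noncomputable def pot (s v : Vx P) : ℕ :=
  if Mt s v then v.j
  else P.D s.i +
    (if v.i = 0 then (v.j - P.L s.i) + (P.L s.i - v.j)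
      else ((P.L v.i - P.L s.i) + (P.L s.i - P.L v.i)) + (P.D v.i - v.j))

theorem mt_iff {s u v : Vx P} (hvi : v.i = u.i)
    (hx : v.x * P.n u.i u.j / P.n u.i (u.j + 1) = u.x) (hj : v.j = u.j + 1) :
    Mt s v ↔ Mt s u := by
  unfold Mt
  have e : v.x / P.n v.i v.j = u.x / P.n u.i u.j := by
    rw [← hx, Nat.div_div_eq_div_mul, hvi, hj, mul_comm v.x, mul_comm (P.n u.i (u.j + 1)),
      Nat.mul_div_mul_left _ _ (P.n_pos _ _)]
  rw [e, hvi]

theorem pot_par {s u v : Vx P} (hs : 0 < s.i) (h : Par u v) :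
    pot s u ≤ pot s v + 1 ∧ pot s v ≤ pot s u + 1 := by
  have h1 := u.hv
  have h2 := v.hv
  rcases h with ⟨hu, hv, hl, hx⟩ | ⟨hu, hv, hl, hx⟩ | ⟨hu, hv, hl, hl', hx, hx'⟩
  · have m1 : ¬ Mt s u := fun h => by have := h.1; omega
    have m2 : ¬ Mt s v := fun h => by have := h.1; omega
    unfold pot
    rw [if_neg m1, if_neg m2, if_pos hu, if_pos hv]
    omega
  · have hm := mt_iff (s := s) hv hx hl
    unfold pot
    by_cases m1 : Mt s u
    · have m2 := hm.2 m1
      rw [if_pos m1, if_pos m2]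
      omega
    · have m2 : ¬ Mt s v := fun h => m1 (hm.1 h)
      rw [if_neg m1, if_neg m2, if_neg (by omega), if_neg (by omega), hv]
      omega
  · have m2 : ¬ Mt s v := fun h => by have := h.1; omega
    unfold pot
    rw [if_neg m2, if_pos hv]
    by_cases m1 : Mt s u
    · have m3 := m1.1
      rw [if_pos m1]
      rw [m3] at hl hl'
      omega
    · rw [if_neg m1, if_neg (by omega)]
      omega

theorem pot_lip {s : Vx P} (hs : 0 < s.i) (u v : Vx P) :
    pot s v ≤ pot s u + (G P).dist u v := by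
  apply lip connected
  intro u v h
  rcases h with h | h
  · exact (pot_par hs h).2
  · exact (pot_par hs h).1

theorem pot_self {s : Vx P} (hsl : s.j = 0) : pot s s = 0 := by
  have m : Mt s s := ⟨rfl, by rw [hsl, P.n_zero, Nat.div_one]⟩
  unfold pot
  rw [if_pos m, hsl]

theorem dist_hub_root {s : Vx P} (hs : 0 < s.i) (hsl : s.j = 0) :
    P.D s.i + P.L s.i ≤ (G P).dist s (rt P) := by
  have h1 := pot_lip hs s (rt P)
  have m : ¬ Mt s (rt P) := fun h => by
    have := h.1
    change 0 = s.i at this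
    omega
  have e : pot s (rt P) = P.D s.i + P.L s.i := by
    unfold pot
    rw [if_neg m, if_pos (show (rt P).i = 0 from rfl)]
    show _ + ((0 - P.L s.i) + (P.L s.i - 0)) = _
    omega
  rw [pot_self hsl, e] at h1
  omega

theorem dist_hub_hub {s t : Vx P} (hs : 0 < s.i) (hsl : s.j = 0) (ht : 0 < t.i)
    (htl : t.j = 0) (hst : s ≠ t) :
    P.D s.i + ((P.L t.i - P.L s.i) + (P.L s.i - P.L t.i)) + P.D t.i ≤ (G P).dist s t := by
  have h1 := pot_lip hs s t
  have m : ¬ Mt s t := by
    rintro ⟨h, h'⟩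
    apply hst
    refine Vx.ext h.symm (by omega) ?_
    rw [← h', htl, P.n_zero, Nat.div_one]
  have e : pot s t = P.D s.i +
      (((P.L t.i - P.L s.i) + (P.L s.i - P.L t.i)) + P.D t.i) := by
    unfold pot
    rw [if_neg m, if_neg (by omega), htl]
    rfl
  rw [pot_self hsl, e] at h1
  omega

/-- roots with the same index `i ≤ 2 N` are equal -/
theorem eq_of_small {s t : Vx P} (hs0 : 0 < s.i) (hsl : s.j = 0) (htl : t.j = 0)
    (hi : s.i = t.i) (h : s.i ≤ 2 * P.N) : s = t := by
  have h1 : s.x < P.q s.i * P.n s.i s.j := by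
    rcases s.hv with h' | h'
    · omega
    · exact h'.2.2.2
  have h2 : t.x < P.q t.i * P.n t.i t.j := by
    rcases t.hv with h' | h'
    · omega
    · exact h'.2.2.2
  rw [hsl, P.n_zero, P.q_small h] at h1
  rw [htl, P.n_zero, ← hi, P.q_small h] at h2
  exact Vx.ext hi (by omega) (by omega)

theorem L_diff {i j : ℕ} (h : i < j) : P.L i + (P.p + 1) ≤ P.L j := by
  unfold Pm.L
  have : (P.p + 1) * (i + 1) ≤ (P.p + 1) * j := Nat.mul_le_mul_left _ h
  rw [mul_add, mul_one] at this
  omega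

theorem sep (s : Vx P) (hs : s ∈ S P) (t : Vx P) (ht : t ∈ S P) (hst : s ≠ t) :
    2 * (P.p * P.N) + 2 * P.p + 1 ≤ (G P).dist s t := by
  have hN := P.hN
  have hp := P.hp
  have key : ∀ u : Vx P, u.i = 0 → u.j = 0 → u = rt P := by
    intro u h1 h2
    have h3 : u.x < P.b ^ u.j := by
      rcases u.hv with h' | h'
      · exact h'.2
      · omega
    rw [h2, pow_zero] at h3
    exact Vx.ext h1 h2 (by show u.x = 0; omega)
  have rootsep : ∀ u : Vx P, 0 < u.i → u.j = 0 →
      2 * (P.p * P.N) + 2 * P.p + 1 ≤ (G P).dist u (rt P) := by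
    intro u h1 h2
    have h3 := dist_hub_root h1 h2
    have h4 : P.N ≤ u.i := by
      have := u.hv
      omega
    have h5 := P.D_ge h4
    have h6 : (P.p + 1) * P.N ≤ (P.p + 1) * u.i := Nat.mul_le_mul_left _ h4
    have h7 : P.L u.i = (P.p + 1) * u.i + P.r := rfl
    rw [add_mul, one_mul] at h6
    omega
  rcases hs with ⟨h1, h2⟩ | ⟨h1, h2⟩
  · rcases ht with ⟨h3, h4⟩ | ⟨h3, h4⟩
    · exact absurd ((key s h1 h2).trans (key t h3 h4).symm) hst
    · rw [key s h1 h2, SimpleGraph.dist_comm]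
      exact rootsep t h3 h4
  · rcases ht with ⟨h3, h4⟩ | ⟨h3, h4⟩
    · rw [key t h3 h4]
      exact rootsep s h1 h2
    · have h5 := dist_hub_hub h1 h2 h3 h4 hst
      have s1 : P.N ≤ s.i := by have := s.hv; omega
      have t1 : P.N ≤ t.i := by have := t.hv; omega
      have s2 := P.D_ge s1
      have t2 := P.D_ge t1
      rcases Nat.lt_trichotomy s.i t.i with h6 | h6 | h6
      · have h7 := L_diff (P := P) h6
        have h8 := P.D_ge' (i := t.i) (by omega)
        omega
      · have h7 : ¬ s.i ≤ 2 * P.N := fun h' => hst (eq_of_small h1 h2 h4 h6 h')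
        have h8 := P.D_big (i := s.i) (by omega)
        rw [← h6, h8] at h5
        have h9 : 2 * P.p ≤ P.p * P.N := by
          rw [mul_comm]
          exact Nat.mul_le_mul_left _ (by omega)
        omega
      · have h7 := L_diff (P := P) h6
        have h8 := P.D_ge' (i := s.i) (by omega)
        omega

theorem isNet : IsNet (G P) (2 * (P.p * P.N) + 2 * P.p + 1) (S P) := by
  refine ⟨fun s hs t ht hst => sep s hs t ht hst, ?_⟩
  intro T hT hST v hv
  obtain ⟨s, hs, hd⟩ := cover v
  by_contra hvS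
  have hne : s ≠ v := fun h => hvS (h ▸ hs)
  have := hT s (hST hs) v hv hne
  omega

end Pool.Agent.Y729.HT
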