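import Pool.Agent.Y729.HT.C
import Pool.Agent.Y729.HT.E

set_option autoImplicit false

namespace Pool.Agent.Y729.HT

variable {P : Pm}

/-! ### The set with small boundary -/

/-- the index of the `t`-th vertex of the set: `0, N, N + 1, ..., 2 N` -/
def idx (P : Pm) (t : ℕ) : ℕ := if t = 0 then 0 else P.N + t - 1

theorem D_pos {i : ℕ} (h : P.N ≤ i) : 0 < P.D i := by
  have hN := P.hN
  have hp := P.hp
  have h1 := P.D_ge h
  have h2 : 0 < P.p * P.N := Nat.mul_pos (by omega) (by omega)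
  omega

theorem idx_valid (t : ℕ) :
    (idx P t = 0 ∧ 0 < P.b ^ 0) ∨
      (P.N ≤ idx P t ∧ 0 < idx P t ∧ 0 < P.D (idx P t) ∧ 0 < P.q (idx P t) * P.n (idx P t) 0) := by
  have hN := P.hN
  have hb := P.b_pos
  by_cases h : t = 0
  · left
    unfold idx
    rw [if_pos h]
    exact ⟨rfl, by simp⟩
  · right
    have h1 : idx P t = P.N + t - 1 := by unfold idx; rw [if_neg h]
    have h2 : P.N ≤ idx P t := by omega
    refine ⟨h2, by omega, D_pos h2, ?_⟩
    rw [P.n_zero]
    unfold Pm.q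
    positivity

/-- the `t`-th vertex of the set, `t ≤ N + 1` -/
def a (P : Pm) (t : Fin (P.N + 2)) : S P :=
  ⟨⟨idx P t, 0, 0, idx_valid t⟩, by
    rcases idx_valid (P := P) t with h | h
    · exact Or.inl ⟨h.1, rfl⟩
    · exact Or.inr ⟨h.2.1, rfl⟩⟩

theorem a_inj : Function.Injective (a P) := by
  intro s t h
  have hN := P.hN
  have h1 : idx P s = idx P t := congrArg (fun u : S P => u.1.i) h
  unfold idx at h1
  apply Fin.ext
  split_ifs at h1 <;> omega

theorem S_j (v : S P) : v.1.j = 0 := by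
  rcases v.2 with h | h
  · exact h.2
  · exact h.2

theorem exists_a (v : S P) (h : v.1.i ≤ 2 * P.N) : ∃ t, a P t = v := by
  have hj := S_j v
  obtain ⟨v, hv⟩ := v
  simp only at h hj
  have hN := P.hN
  have h1 : v.x = 0 := by
    rcases v.hv with h' | h'
    · have := h'.2
      rw [hj, pow_zero] at this
      omega
    · have := h'.2.2.2
      rw [hj, P.n_zero, P.q_small h] at this
      omega
  have h2 := v.hv
  by_cases h0 : v.i = 0
  · refine ⟨⟨0, by omega⟩, ?_⟩
    apply Subtype.ext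
    apply Vx.ext
    · show idx P 0 = v.i
      rw [h0]; rfl
    · exact hj.symm
    · exact h1.symm
  · refine ⟨⟨v.i - P.N + 1, by omega⟩, ?_⟩
    apply Subtype.ext
    apply Vx.ext
    · show idx P (v.i - P.N + 1) = v.i
      unfold idx
      rw [if_neg (by omega)]
      omega
    · exact hj.symm
    · exact h1.symm

theorem boundary_edge (u v : S P) (hu : u.1.i ≤ 2 * P.N) (hv : 2 * P.N < v.1.i)
    (hd : (G P).dist u.1 v.1 ≤ 2 * (2 * (P.p * P.N) + 2 * P.p + 1)) :
    2 * P.N ≤ u.1.i + (3 * P.p + 1) ∧ v.1.i ≤ 2 * P.N + 3 := by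
  have hN := P.hN
  have hp := P.hp
  have hv2 : 0 < v.1.i := by omega
  have hDv := P.D_big (i := v.1.i) (by omega)
  have e0 : (P.p + 1) * (2 * P.N + 1) ≤ (P.p + 1) * v.1.i := Nat.mul_le_mul_left _ hv
  have e1 : (P.p + 1) * (2 * P.N + 1) = 2 * (P.p * P.N) + 2 * P.N + P.p + 1 := by ring
  have e2 : P.L v.1.i = (P.p + 1) * v.1.i + P.r := rfl
  rcases u.2 with h | h
  · exfalso
    have h3 : u.1.x < P.b ^ u.1.j := by
      rcases u.1.hv with h' | h'
      · exact h'.2
      · omega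
    rw [h.2, pow_zero] at h3
    have hu : u.1 = rt P := Vx.ext h.1 h.2 (by show u.1.x = 0; omega)
    have h4 := dist_hub_root hv2 (S_j v)
    rw [hu, SimpleGraph.dist_comm] at hd
    omega
  · have hne : u.1 ≠ v.1 := fun h' => by rw [h'] at hu; omega
    have h4 := dist_hub_hub h.1 h.2 hv2 (S_j v) hne
    have hDu := P.D_small hu
    have e3 : P.L u.1.i = (P.p + 1) * u.1.i + P.r := rfl
    have e4 : (P.p + 1) * u.1.i = P.p * u.1.i + u.1.i := by ring
    refine ⟨by omega, ?_⟩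
    by_contra h5
    have e5 : (P.p + 1) * (2 * P.N + 4) ≤ (P.p + 1) * v.1.i :=
      Nat.mul_le_mul_left _ (by omega)
    have e6 : (P.p + 1) * (2 * P.N + 4) = 2 * (P.p * P.N) + 2 * P.N + 4 * P.p + 4 := by ring
    omega

/-- the bound for the number of boundary edges -/
def CC (P : Pm) : ℕ := (3 * P.p + 2) * (3 * P.b ^ (3 * (P.p + 1)))

theorem boundary_le (A : Finset (S P)) (hA : ∀ v, v ∈ A ↔ ∃ t, a P t = v) :
    (edgeBoundary (netGraph (G P) (2 * (P.p * P.N) + 2 * P.p + 1) (S P)) (A : Set (S P))).encard ≤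
      CC P := by
  classical
  have hN := P.hN
  have hi : ∀ v ∈ A, v.1.i ≤ 2 * P.N := by
    intro v hv
    obtain ⟨t, rfl⟩ := (hA v).1 hv
    show idx P t ≤ 2 * P.N
    unfold idx
    split_ifs <;> omega
  set U : Set (S P) := {u | u ∈ A ∧ 2 * P.N ≤ u.1.i + (3 * P.p + 1)} with hU
  set W : Set (S P) := {v | 2 * P.N < v.1.i ∧ v.1.i ≤ 2 * P.N + 3} with hW
  have hsub : edgeBoundary (netGraph (G P) (2 * (P.p * P.N) + 2 * P.p + 1) (S P))
      (A : Set (S P)) ⊆ (fun p : S P × S P => s(p.1, p.2)) '' (U ×ˢ W) := by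
    rintro e ⟨u, v, hu, hv, hadj, rfl⟩
    have hu' : u ∈ A := hu
    have hv' : v ∉ A := hv
    have h1 : 2 * P.N < v.1.i := by
      by_contra h
      exact hv' ((hA v).2 (exists_a v (by omega)))
    obtain ⟨h2, h3⟩ := boundary_edge u v (hi u hu') h1 hadj.2
    exact ⟨(u, v), ⟨⟨hu', h2⟩, ⟨h1, h3⟩⟩, rfl⟩
  have hUc : U.encard ≤ (3 * P.p + 2 : ℕ) := by
    have := Set.encard_le_encard_of_injOn (s := U)
      (t := ((Finset.Icc (2 * P.N - (3 * P.p + 1)) (2 * P.N) : Finset ℕ) : Set ℕ))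
      (f := fun u : S P => u.1.i)
      (fun u hu => by
        have h1 := hi u hu.1
        have h2 := hu.2
        rw [Finset.mem_coe, Finset.mem_Icc]
        show 2 * P.N - (3 * P.p + 1) ≤ u.1.i ∧ u.1.i ≤ 2 * P.N
        omega)
      (fun u hu v hv h => by
        obtain ⟨s, rfl⟩ := (hA u).1 hu.1
        obtain ⟨t, rfl⟩ := (hA v).1 hv.1
        exact Subtype.ext (Vx.ext h rfl rfl))
    refine this.trans ?_
    rw [Set.encard_coe_eq_coe_finsetCard, Nat.card_Icc]
    have : 2 * P.N + 1 - (2 * P.N - (3 * P.p + 1)) ≤ 3 * P.p + 2 := by omega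
    exact_mod_cast this
  have hWc : W.encard ≤ (3 * P.b ^ (3 * (P.p + 1)) : ℕ) := by
    have := Set.encard_le_encard_of_injOn (s := W)
      (t := ((Finset.Icc (2 * P.N + 1) (2 * P.N + 3) ×ˢ
        Finset.range (P.b ^ (3 * (P.p + 1))) : Finset (ℕ × ℕ)) : Set (ℕ × ℕ)))
      (f := fun u : S P => (u.1.i, u.1.x))
      (fun v hv => by
        have h1 : v.1.x < P.q v.1.i * P.n v.1.i v.1.j := by
          have := hv.1
          rcases v.1.hv with h' | h'
          · omega
          · exact h'.2.2.2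
        have h2 := hv.1
        have h3 := hv.2
        rw [S_j v, P.n_zero, mul_one, P.q_big (by omega)] at h1
        rw [Finset.mem_coe, Finset.mem_product, Finset.mem_Icc, Finset.mem_range]
        refine ⟨⟨by simp only; omega, by simp only; omega⟩, lt_of_lt_of_le h1 ?_⟩
        apply Nat.pow_le_pow_right P.b_pos
        rw [mul_comm 3]
        exact Nat.mul_le_mul_left _ (by omega))
      (fun u hu v hv h => by
        have h1 : u.1.i = v.1.i := congrArg Prod.fst h
        have h2 : u.1.x = v.1.x := congrArg Prod.snd h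
        exact Subtype.ext (Vx.ext h1 (by rw [S_j, S_j]) h2))
    rw [Set.encard_coe_eq_coe_finsetCard, Finset.card_product, Finset.card_range,
      Nat.card_Icc] at this
    have e : 2 * P.N + 3 + 1 - (2 * P.N + 1) = 3 := by omega
    rwa [e] at this
  calc _ ≤ _ := Set.encard_le_encard hsub
    _ ≤ (U ×ˢ W).encard := Set.encard_image_le _ _
    _ = U.encard * W.encard := Set.encard_prod
    _ ≤ ((3 * P.p + 2 : ℕ) : ℕ∞) * ((3 * P.b ^ (3 * (P.p + 1)) : ℕ) : ℕ∞) :=
        mul_le_mul' hUc hWc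
    _ = _ := by unfold CC; push_cast; rfl

theorem cheeger_net :
    cheeger (netGraph (G P) (2 * (P.p * P.N) + 2 * P.p + 1) (S P)) ≤
      (CC P : ENNReal) / ((P.N + 2 : ℕ) : ENNReal) := by
  classical
  set A : Finset (S P) := Finset.univ.map ⟨a P, a_inj⟩ with hA
  have hmem : ∀ v, v ∈ A ↔ ∃ t, a P t = v := by
    intro v
    simp [hA]
  have hcard : A.card = P.N + 2 := by
    rw [hA, Finset.card_map, Finset.card_univ, Fintype.card_fin]
  have hne : A.Nonempty := by
    rw [← Finset.card_pos, hcard]; omega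
  unfold cheeger
  refine (iInf₂_le A hne).trans ?_
  rw [hcard]
  apply ENNReal.div_le_div_right
  exact_mod_cast boundary_le A hmem

theorem pow_ge (b p : ℕ) : b ^ (p + 1) + (p + 1) * b ^ p ≤ (b + 1) ^ (p + 1) := by
  induction p with
  | zero => simp
  | succ p ih =>
    calc b ^ (p + 1 + 1) + (p + 1 + 1) * b ^ (p + 1)
        ≤ (b ^ (p + 1) + (p + 1) * b ^ p) * (b + 1) := by
          have e : (b ^ (p + 1) + (p + 1) * b ^ p) * (b + 1) =
            b ^ (p + 1 + 1) + (p + 1 + 1) * b ^ (p + 1) + (p + 1) * b ^ p := by ring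
          omega
      _ ≤ (b + 1) ^ (p + 1) * (b + 1) := Nat.mul_le_mul_right _ ih
      _ = _ := by ring

theorem pow_cond (b p : ℕ) (h : b * b ≤ p + 1) : b ^ (p + 1 + 1) ≤ (b + 1) ^ (p + 1) := by
  refine le_trans ?_ (pow_ge b p)
  calc b ^ (p + 1 + 1) = (b * b) * b ^ p := by ring
    _ ≤ (p + 1) * b ^ p := Nat.mul_le_mul_right _ h
    _ ≤ _ := Nat.le_add_left _ _

/-- The examples. -/
theorem examples (b r : ℕ) (hb : 2 ≤ b) (c : ENNReal)
    (hc : c * ((r + 1 : ℕ) : ENNReal) + ((r + 1 : ℕ) : ENNReal) + 1 ≤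
      ((r + 1 : ℕ) : ENNReal) * (b : ENNReal)) (ε : ENNReal) (hε : 0 < ε) :
    ∃ (k : ℕ) (V : Type) (G : SimpleGraph V) (S : Set V),
      1 ≤ k ∧ Infinite V ∧ G.Connected ∧ (∀ v, (G.neighborSet v).encard ≤ (b + 2 : ℕ)) ∧
      c ≤ cheeger G ∧ IsNet G k S ∧ cheeger (netGraph G k S) < ε := by
  obtain ⟨p, hp1, hp2, hp3⟩ : ∃ p, 1 ≤ p ∧ r ≤ p ∧ b ^ (p + 1) ≤ (b + 1) ^ p := by
    refine ⟨b * b + r + 1, by omega, by omega, pow_cond b _ (by omega)⟩
  have hlim : Filter.Tendsto (fun n : ℕ =>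
      (((3 * p + 2) * (3 * b ^ (3 * (p + 1))) : ℕ) : ENNReal) / (n : ENNReal)) Filter.atTop
      (nhds 0) := by
    have := ENNReal.Tendsto.const_div
      (a := (((3 * p + 2) * (3 * b ^ (3 * (p + 1))) : ℕ) : ENNReal)) (b := ⊤)
      ENNReal.tendsto_nat_nhds_top (Or.inr (ENNReal.natCast_ne_top _))
    simpa using this
  obtain ⟨n₀, hn₀⟩ := Filter.eventually_atTop.1 (hlim.eventually (gt_mem_nhds hε))
  let P : Pm := ⟨b, p, r, n₀ + 2 * p + 1, hb, hp1, hp2, by omega, hp3⟩
  refine ⟨2 * (P.p * P.N) + 2 * P.p + 1, Vx P, G P, S P, by omega, infinite, connected,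
    degree_le, cheeger_ge c hc, isNet, ?_⟩
  exact cheeger_net.trans_lt (hn₀ (n₀ + 2 * p + 1 + 2) (by omega))

end Pool.Agent.Y729.HT
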