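import Pool.Agent.Y729.HT.B

set_option autoImplicit false

namespace Pool.Agent.Y729.HT

/-- Parameters of the refined construction: the blocks are `g`-ary trees of height `r`, the tree
of the blocks has the parameters `P`. -/
structure Qm where
  P : Pm
  g : ℕ
  r : ℕ
  hg : 2 ≤ g
  hr0 : P.r = 0
  hbg : P.b + 1 = g ^ (r + 1)

section slots
variable {P : Pm}

/-- the slot of the child block `c` of the block `u` -/
noncomputable def slot (u c : Vx P) : ℕ :=
  if u.i = 0 then c.x % P.b else pos c - lowc (P.n u.i u.j) (P.n u.i (u.j + 1)) u.x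

theorem slot_lt_base {u c : Vx P} (hu : u.i = 0) : slot u c < P.b := by
  unfold slot
  rw [if_pos hu]
  exact Nat.mod_lt _ P.b_pos

theorem slot_lt {u c : Vx P} (h : Par u c) : slot u c < P.b + 1 := by
  by_cases hu : u.i = 0
  · exact (slot_lt_base hu).trans (Nat.lt_succ_self _)
  · have h1 := pos_mem (by omega) h
    unfold slot
    rw [if_neg hu]
    omega

theorem slot_inj {u c c' : Vx P} (h : Par u c) (h' : Par u c') (h0 : slot u c = slot u c') :
    c = c' := by
  by_cases hu : u.i = 0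
  · unfold slot at h0
    rw [if_pos hu, if_pos hu] at h0
    exact base_child_unique hu h h' h0
  · have h1 := pos_mem (by omega) h
    have h2 := pos_mem (by omega) h'
    unfold slot at h0
    rw [if_neg hu, if_neg hu] at h0
    exact hub_child_unique (by omega) h h' (by omega)

theorem slot_ch (u : Vx P) (t : ℕ) (ht : t < P.b) : slot u (ch u t ht) = t := by
  have hb := P.b_pos
  unfold slot
  by_cases hu : u.i = 0
  · rw [if_pos hu]
    unfold ch
    rw [dif_pos hu]
    show (P.b * u.x + t) % P.b = t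
    rw [Nat.mul_add_mod]
    exact Nat.mod_eq_of_lt ht
  · rw [if_neg hu]
    have hp : pos (ch u t ht) = lowc (P.n u.i u.j) (P.n u.i (u.j + 1)) u.x + t := by
      unfold ch pos
      rw [dif_neg hu]
      split_ifs with h1 h2
      · rfl
      · show (_ * P.b ^ P.r) / P.b ^ P.r = _
        rw [Nat.mul_div_cancel _ (by positivity)]
      · exact absurd rfl h2
    rw [hp]
    omega

theorem par_asymm {u v : Vx P} (h : Par u v) (h' : Par v u) : False := by
  rcases h with ⟨a1, a2, a3, a4⟩ | ⟨a1, a2, a3, a4⟩ | ⟨a1, a2, a3, a4, a5, a6⟩ <;>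
    rcases h' with ⟨b1, b2, b3, b4⟩ | ⟨b1, b2, b3, b4⟩ | ⟨b1, b2, b3, b4, b5, b6⟩ <;>
    omega

end slots

variable {Q : Qm}

/-- Vertices of the refined graph. -/
@[ext] structure Wx (Q : Qm) where
  B : Vx Q.P
  l : ℕ
  y : ℕ
  hl : l ≤ Q.r
  hy : y < Q.g ^ l

theorem Qm.g_pos (Q : Qm) : 0 < Q.g := by have := Q.hg; omega

theorem Qm.gr_pos (Q : Qm) : 0 < Q.g ^ Q.r := by have := Q.g_pos; positivity

/-- regular parents -/
def RR (w v : Wx Q) : Prop :=
  (v.B = w.B ∧ v.l = w.l + 1 ∧ v.y / Q.g = w.y) ∨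
  (Par w.B v.B ∧ (w.B.i = 0 ↔ v.B.i = 0) ∧ w.l = Q.r ∧ v.l = 0 ∧ slot w.B v.B / Q.g = w.y)

/-- links from the hub trees to the base tree -/
def KK (w v : Wx Q) : Prop :=
  Par w.B v.B ∧ 0 < w.B.i ∧ v.B.i = 0 ∧ w.l = Q.r ∧ v.l = Q.r ∧ v.y = Q.g ^ Q.r - 1 ∧
    slot w.B v.B / Q.g = w.y

/-- `w` is a parent of `v` -/
def PW (w v : Wx Q) : Prop := RR w v ∨ KK w v

theorem RR_unique {w w' v : Wx Q} (h : RR w v) (h' : RR w' v) : w = w' := by
  rcases h with ⟨a1, a2, a3⟩ | ⟨a1, a2, a3, a4, a5⟩ <;>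
    rcases h' with ⟨b1, b2, b3⟩ | ⟨b1, b2, b3, b4, b5⟩
  · exact Wx.ext (by rw [← a1, ← b1]) (by omega) (by omega)
  · omega
  · omega
  · have e : w.B = w'.B := par_unique a1 b1 (by rw [a2, b2])
    refine Wx.ext e (by omega) ?_
    rw [← a5, ← b5, e]

theorem KK_unique {w w' v : Wx Q} (h : KK w v) (h' : KK w' v) : w = w' := by
  obtain ⟨a1, a2, a3, a4, a5, a6, a7⟩ := h
  obtain ⟨b1, b2, b3, b4, b5, b6, b7⟩ := h'
  have e : w.B = w'.B := par_unique a1 b1 (by omega)
  refine Wx.ext e (by omega) ?_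
  rw [← a7, ← b7, e]

theorem PW_asymm {u v : Wx Q} (h : PW u v) (h' : PW v u) : False := by
  rcases h with (⟨a1, a2, a3⟩ | ⟨a1, a2, a3, a4, a5⟩) | ⟨a1, a2⟩ <;>
    rcases h' with (⟨b1, b2, b3⟩ | ⟨b1, b2, b3, b4, b5⟩) | ⟨b1, b2⟩
  · omega
  · rw [a1] at b1; exact par_irrefl _ b1
  · rw [a1] at b1; exact par_irrefl _ b1
  · rw [b1] at a1; exact par_irrefl _ a1
  · exact par_asymm a1 b1
  · exact par_asymm a1 b1
  · rw [b1] at a1; exact par_irrefl _ a1
  · exact par_asymm a1 b1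
  · exact par_asymm a1 b1

/-- the refined graph -/
def GW (Q : Qm) : SimpleGraph (Wx Q) where
  Adj u v := PW u v ∨ PW v u
  symm := ⟨fun u v h => h.symm⟩
  loopless := ⟨fun u h => PW_asymm (h.elim id id) (h.elim id id)⟩

/-- the number of a child -/
noncomputable def key (w v : Wx Q) : ℕ := if w.l < Q.r then v.y else slot w.B v.B

theorem key_div {w v : Wx Q} (h : PW w v) : key w v / Q.g = w.y := by
  have h1 := v.hl
  unfold key
  rcases h with (⟨a1, a2, a3⟩ | ⟨a1, a2, a3, a4, a5⟩) | ⟨a1, a2, a3, a4, a5, a6, a7⟩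
  · rw [if_pos (by omega)]; exact a3
  · rw [if_neg (by omega)]; exact a5
  · rw [if_neg (by omega)]; exact a7

theorem key_inj {w v v' : Wx Q} (h : PW w v) (h' : PW w v') (h0 : key w v = key w v') :
    v = v' := by
  have h1 := v.hl
  have h2 := v'.hl
  have h3 := v.hy
  have h4 := v'.hy
  unfold key at h0
  rcases h with (⟨a1, a2, a3⟩ | ⟨a1, a2, a3, a4, a5⟩) | ⟨a1, a2, a3, a4, a5, a6, a7⟩ <;>
    rcases h' with (⟨b1, b2, b3⟩ | ⟨b1, b2, b3, b4, b5⟩) | ⟨b1, b2, b3, b4, b5, b6, b7⟩ <;>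
    try omega
  · rw [if_pos (by omega), if_pos (by omega)] at h0
    exact Wx.ext (by rw [a1, b1]) (by omega) h0
  · rw [if_neg (by omega), if_neg (by omega)] at h0
    have e := slot_inj a1 b1 h0
    rw [a4, pow_zero] at h3
    rw [b4, pow_zero] at h4
    exact Wx.ext e (by omega) (by omega)
  · exfalso
    rw [if_neg (by omega), if_neg (by omega)] at h0
    have e := slot_inj a1 b1 h0
    rw [e] at a2
    omega
  · exfalso
    rw [if_neg (by omega), if_neg (by omega)] at h0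
    have e := slot_inj a1 b1 h0
    rw [← e] at b2
    omega
  · rw [if_neg (by omega), if_neg (by omega)] at h0
    have e := slot_inj a1 b1 h0
    exact Wx.ext e (by omega) (by omega)

theorem exists_child (w : Wx Q) (t : ℕ) (ht : t < Q.g)
    (hok : w.l < Q.r ∨ Q.g * w.y + t < Q.P.b) :
    ∃ v, PW w v ∧ key w v = Q.g * w.y + t := by
  have hg := Q.g_pos
  by_cases hl : w.l < Q.r
  · refine ⟨⟨w.B, w.l + 1, Q.g * w.y + t, hl, ?_⟩, Or.inl (Or.inl ⟨rfl, rfl, ?_⟩), ?_⟩
    · have h1 := w.hy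
      calc Q.g * w.y + t < Q.g * w.y + Q.g := by omega
        _ = Q.g * (w.y + 1) := by ring
        _ ≤ Q.g * Q.g ^ w.l := Nat.mul_le_mul_left _ h1
        _ = Q.g ^ (w.l + 1) := by ring
    · show (Q.g * w.y + t) / Q.g = w.y
      rw [Nat.mul_add_div hg, Nat.div_eq_of_lt ht, add_zero]
    · unfold key; rw [if_pos hl]
  · have hl' : w.l = Q.r := by have := w.hl; omega
    have hb : Q.g * w.y + t < Q.P.b := by omega
    have hpar := par_ch w.B _ hb
    have hslot := slot_ch w.B _ hb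
    have hdiv : slot w.B (ch w.B _ hb) / Q.g = w.y := by
      rw [hslot, Nat.mul_add_div hg, Nat.div_eq_of_lt ht, add_zero]
    by_cases hty : w.B.i = 0 ↔ (ch w.B _ hb).i = 0
    · refine ⟨⟨ch w.B _ hb, 0, 0, by omega, by simp⟩,
        Or.inl (Or.inr ⟨hpar, hty, hl', rfl, hdiv⟩), ?_⟩
      unfold key; rw [if_neg hl]; exact hslot
    · have h1 : 0 < w.B.i ∧ (ch w.B _ hb).i = 0 := by
        rcases hpar with ⟨a1, a2, a3, a4⟩ | ⟨a1, a2, a3, a4⟩ | ⟨a1, a2, a3, a4, a5, a6⟩
        · exact absurd ⟨fun _ => a2, fun _ => a1⟩ hty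
        · exact absurd ⟨fun h => by omega, fun h => by omega⟩ hty
        · exact ⟨a1, a2⟩
      have hgr := Q.gr_pos
      refine ⟨⟨ch w.B _ hb, Q.r, Q.g ^ Q.r - 1, le_rfl, by omega⟩,
        Or.inr ⟨hpar, h1.1, h1.2, hl', rfl, rfl, hdiv⟩, ?_⟩
      unfold key; rw [if_neg hl]; exact hslot

theorem degree_leW (w : Wx Q) : ((GW Q).neighborSet w).encard ≤ (Q.g + 1 : ℕ) := by
  classical
  have hg := Q.g_pos
  have hsub : (GW Q).neighborSet w ⊆ {v | PW w v} ∪ ({v | RR v w} ∪ {v | KK v w}) := by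
    intro v hv
    rcases hv with h | h | h
    · exact Or.inl h
    · exact Or.inr (Or.inl h)
    · exact Or.inr (Or.inr h)
  refine (Set.encard_le_encard hsub).trans ((Set.encard_union_le _ _).trans
    ((add_le_add_right (Set.encard_union_le _ _) _).trans ?_))
  have hR : ({v | RR v w} : Set (Wx Q)).encard ≤ 1 := by
    rw [Set.encard_le_one_iff]
    intro v v' hv hv'
    exact RR_unique hv hv'
  have hK : ({v | KK v w} : Set (Wx Q)).encard ≤ 1 := by
    rw [Set.encard_le_one_iff]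
    intro v v' hv hv'
    exact KK_unique hv hv'
  have hC : ({v | PW w v} : Set (Wx Q)).encard ≤ (Q.g : ℕ) := by
    have := Set.encard_le_encard_of_injOn (s := {v : Wx Q | PW w v})
      (t := ((Finset.Ico (Q.g * w.y) (Q.g * w.y + Q.g) : Finset ℕ) : Set ℕ))
      (f := fun v => key w v)
      (fun v hv => by
        have h1 := key_div hv
        rw [Finset.mem_coe, Finset.mem_Ico]
        show Q.g * w.y ≤ key w v ∧ key w v < Q.g * w.y + Q.g
        have h2 := Nat.div_add_mod (key w v) Q.g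
        have h3 := Nat.mod_lt (key w v) hg
        rw [h1] at h2
        omega)
      (fun v hv v' hv' h => key_inj hv hv' h)
    rwa [Set.encard_coe_eq_coe_finsetCard, Nat.card_Ico, Nat.add_sub_cancel_left] at this
  by_cases hlast : w.l = Q.r ∧ w.B.i = 0 ∧ w.y = Q.g ^ Q.r - 1
  · obtain ⟨h1, h2, h3⟩ := hlast
    have hC' : ({v | PW w v} : Set (Wx Q)).encard ≤ (Q.g - 1 : ℕ) := by
      have := Set.encard_le_encard_of_injOn (s := {v : Wx Q | PW w v})
        (t := ((Finset.Ico (Q.g * w.y) Q.P.b : Finset ℕ) : Set ℕ))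
        (f := fun v => key w v)
        (fun v hv => by
          have h4 := key_div hv
          rw [Finset.mem_coe, Finset.mem_Ico]
          show Q.g * w.y ≤ key w v ∧ key w v < Q.P.b
          have h5 : key w v = slot w.B v.B := by
            unfold key; rw [if_neg (by omega)]
          have h6 := slot_lt_base (c := v.B) h2
          refine ⟨?_, by omega⟩
          rw [← h4]
          exact Nat.mul_div_le _ _)
        (fun v hv v' hv' h => key_inj hv hv' h)
      rw [Set.encard_coe_eq_coe_finsetCard, Nat.card_Ico] at this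
      refine this.trans ?_
      have h7 := Q.hbg
      have h8 := Q.gr_pos
      have h9 : Q.g * w.y + Q.g = Q.P.b + 1 := by
        rw [h7, h3, ← Nat.mul_succ, Nat.succ_eq_add_one, Nat.sub_add_cancel h8, pow_succ,
          mul_comm]
      have : Q.P.b - Q.g * w.y ≤ Q.g - 1 := by omega
      exact_mod_cast this
    calc _ ≤ ((Q.g - 1 : ℕ) : ℕ∞) + (1 + 1) := add_le_add hC' (add_le_add hR hK)
      _ = ((Q.g - 1 + 2 : ℕ) : ℕ∞) := by push_cast; rfl
      _ ≤ _ := by
        have : Q.g - 1 + 2 ≤ Q.g + 1 := by omega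
        exact_mod_cast this
  · have hK0 : ({v | KK v w} : Set (Wx Q)) = ∅ := by
      rw [Set.eq_empty_iff_forall_notMem]
      rintro v ⟨a1, a2, a3, a4, a5, a6, a7⟩
      exact hlast ⟨a5, a3, a6⟩
    rw [hK0, Set.encard_empty, add_zero]
    calc _ ≤ ((Q.g : ℕ) : ℕ∞) + 1 := add_le_add hC hR
      _ = _ := by push_cast; rfl

end Pool.Agent.Y729.HT
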