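import Pool.Agent.Y729.HT.Z1

set_option autoImplicit false

namespace Pool.Agent.Y729.HT

variable {Q : Qm}

/-- the last vertex of the bottom level of its block -/
def Last (w : Wx Q) : Prop := w.l = Q.r ∧ w.y = Q.g ^ Q.r - 1

/-- the ancestor `s` levels above, in the same block -/
def up (v : Wx Q) (s : ℕ) : Wx Q :=
  if h : s ≤ v.l then
    ⟨v.B, v.l - s, v.y / Q.g ^ s, by have := v.hl; omega, by
      have h1 := v.hy
      apply Nat.div_lt_of_lt_mul
      rw [← pow_add, Nat.add_sub_cancel' h]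
      exact h1⟩
  else v

theorem up_RR {v : Wx Q} {s : ℕ} (hs : s + 1 ≤ v.l) : RR (up v (s + 1)) (up v s) := by
  unfold up
  rw [dif_pos hs, dif_pos (by omega : s ≤ v.l)]
  left
  refine ⟨rfl, ?_, ?_⟩
  · show v.l - s = v.l - (s + 1) + 1
    omega
  · show v.y / Q.g ^ s / Q.g = v.y / Q.g ^ (s + 1)
    rw [Nat.div_div_eq_div_mul, pow_succ]

theorem up_zero (v : Wx Q) : up v 0 = v := by
  unfold up
  rw [dif_pos (Nat.zero_le _)]
  apply Wx.ext
  · rfl
  · rfl
  · show v.y / Q.g ^ 0 = v.y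
    simp

theorem up_l {v : Wx Q} {s : ℕ} (hs : s ≤ v.l) : (up v s).l = v.l - s ∧ (up v s).B = v.B := by
  unfold up
  rw [dif_pos hs]
  exact ⟨rfl, rfl⟩

theorem up_inj {v w : Wx Q} {s t : ℕ} (hv : Last v) (hw : Last w) (hs : s ≤ Q.r) (ht : t ≤ Q.r)
    (h : up v s = up w t) : v = w ∧ s = t := by
  obtain ⟨v1, v2⟩ := hv
  obtain ⟨w1, w2⟩ := hw
  have e1 := up_l (v := v) (s := s) (by omega)
  have e2 := up_l (v := w) (s := t) (by omega)
  have e3 : v.B = w.B := by rw [← e1.2, ← e2.2, h]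
  have e4 : v.l - s = w.l - t := by rw [← e1.1, ← e2.1, h]
  exact ⟨Wx.ext e3 (by omega) (by omega), by omega⟩

open Classical in
/-- the `t`-th child -/
noncomputable def cw (w : Wx Q) (t : Fin Q.g) : Wx Q :=
  if h : w.l < Q.r ∨ Q.g * w.y + t.1 < Q.P.b then (exists_child w t.1 t.2 h).choose else w

theorem cw_spec (w : Wx Q) (t : Fin Q.g) (h : w.l < Q.r ∨ Q.g * w.y + t.1 < Q.P.b) :
    PW w (cw w t) ∧ key w (cw w t) = Q.g * w.y + t.1 := by
  unfold cw
  rw [dif_pos h]
  exact (exists_child w t.1 t.2 h).choose_spec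

theorem boundary_geW (A : Finset (Wx Q)) :
    ∃ M : ℕ, (M : ℕ∞) ≤ (edgeBoundary (GW Q) (A : Set (Wx Q))).encard ∧
      (Q.r + 1) * (Q.g * A.card) ≤ (Q.r + 1) * M + (Q.r + 1) * A.card + 2 * A.card := by
  classical
  set Q00 := A ×ˢ (Finset.univ : Finset (Fin Q.g)) with hQ00
  have hQc : Q00.card = Q.g * A.card := by
    rw [hQ00, Finset.card_product, Finset.card_univ, Fintype.card_fin, mul_comm]
  set ok : Wx Q × Fin Q.g → Prop := fun p => p.1.l < Q.r ∨ Q.g * p.1.y + p.2.1 < Q.P.b with hok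
  set Q0 := Q00.filter ok with hQ0
  set c : Wx Q × Fin Q.g → Wx Q := fun p => cw p.1 p.2 with hc
  have hcp : ∀ p, ok p → PW p.1 (c p) := fun p hp => (cw_spec _ _ hp).1
  have hci : ∀ p q, ok p → ok q → p.1 = q.1 → c p = c q → p = q := by
    rintro ⟨u, s⟩ ⟨u', s'⟩ hp hq h h'
    simp only at h
    subst h
    have e1 : key u (cw u s) = Q.g * u.y + s.1 := (cw_spec u s hp).2
    have e2 : key u (cw u s') = Q.g * u.y + s'.1 := (cw_spec u s' hq).2
    have e3 : cw u s = cw u s' := h'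
    rw [e3] at e1
    have e4 : s.1 = s'.1 := by omega
    exact Prod.ext rfl (Fin.ext e4)
  set Z := A.filter Last with hZ
  have h0 : Q.g * A.card ≤ Q0.card + Z.card := by
    have hs0 : Q0.card + (Q00.filter (fun p => ¬ ok p)).card = Q00.card :=
      Finset.card_filter_add_card_filter_not _
    have : (Q00.filter (fun p => ¬ ok p)).card ≤ Z.card := by
      have hlast : ∀ p ∈ Q00.filter (fun p => ¬ ok p), p.1 ∈ A ∧ Last p.1 ∧
          p.2.1 = Q.g - 1 := by
        intro p hp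
        rw [Finset.mem_filter, hQ00, Finset.mem_product] at hp
        have h1 : ¬ (p.1.l < Q.r ∨ Q.g * p.1.y + p.2.1 < Q.P.b) := hp.2
        have h2 := p.1.hl
        have h3 := p.1.hy
        have h4 := p.2.2
        have h5 := Q.hbg
        have h6 : p.1.l = Q.r := by omega
        rw [h6] at h3
        have h7 : Q.g * (p.1.y + 1) ≤ Q.g * Q.g ^ Q.r := Nat.mul_le_mul_left _ h3
        have h8 : Q.g * Q.g ^ Q.r = Q.P.b + 1 := by rw [h5]; ring
        have h9 : Q.g * (p.1.y + 1) = Q.g * p.1.y + Q.g := by ring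
        have h10 : Q.g * p.1.y + Q.g = Q.g * Q.g ^ Q.r := by omega
        have h11 : p.1.y + 1 = Q.g ^ Q.r := by
          rw [← h9] at h10
          exact Nat.eq_of_mul_eq_mul_left Q.g_pos h10
        exact ⟨hp.1.1, ⟨h6, by omega⟩, by omega⟩
      apply Finset.card_le_card_of_injOn Prod.fst
      · intro p hp
        obtain ⟨h1, h2, h3⟩ := hlast p hp
        simp only [hZ, Finset.coe_filter, Set.mem_ofPred_eq]
        exact ⟨h1, h2⟩
      · intro p hp q hq h
        obtain ⟨-, -, h3⟩ := hlast p hp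
        obtain ⟨-, -, h4⟩ := hlast q hq
        exact Prod.ext h (Fin.ext (by rw [h3, h4]))
    omega
  set Q1 := Q0.filter (fun p => c p ∈ A) with hQ1
  set Q2 := Q0.filter (fun p => c p ∉ A) with hQ2
  have hsum : Q1.card + Q2.card = Q0.card := Finset.card_filter_add_card_filter_not _
  have hQ1' : ∀ p ∈ Q1, p.1 ∈ A ∧ ok p ∧ c p ∈ A := by
    intro p hp
    rw [hQ1, Finset.mem_filter, hQ0, Finset.mem_filter, hQ00, Finset.mem_product] at hp
    exact ⟨hp.1.1.1, hp.1.2, hp.2⟩
  have hQ2' : ∀ p ∈ Q2, p.1 ∈ A ∧ ok p ∧ c p ∉ A := by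
    intro p hp
    rw [hQ2, Finset.mem_filter, hQ0, Finset.mem_filter, hQ00, Finset.mem_product] at hp
    exact ⟨hp.1.1.1, hp.1.2, hp.2⟩
  set Rp : Wx Q → Prop := fun v => ∃ u ∈ A, RR u v with hRp
  set Kp : Wx Q → Prop := fun v => ∃ u ∈ A, KK u v with hKp
  set X := A.filter (fun v => Rp v ∧ Kp v) with hX
  set Y := A.filter (fun v => ¬ (Rp v ∨ Kp v)) with hY
  have h1 : Q1.card + Y.card ≤ A.card + X.card := by
    have a1 : (Q1.filter (fun p => RR p.1 (c p))).card ≤ (A.filter Rp).card := by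
      apply Finset.card_le_card_of_injOn c
      · intro p hp
        simp only [Finset.coe_filter, Set.mem_ofPred_eq] at hp
        obtain ⟨b1, b2, b3⟩ := hQ1' p hp.1
        simp only [Finset.coe_filter, Set.mem_ofPred_eq]
        exact ⟨b3, p.1, b1, hp.2⟩
      · intro p hp q hq h
        simp only [Finset.coe_filter, Set.mem_ofPred_eq] at hp hq
        exact hci p q (hQ1' p hp.1).2.1 (hQ1' q hq.1).2.1
          (RR_unique hp.2 (h ▸ hq.2)) h
    have a2 : (Q1.filter (fun p => ¬ RR p.1 (c p))).card ≤ (A.filter Kp).card := by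
      apply Finset.card_le_card_of_injOn c
      · intro p hp
        simp only [Finset.coe_filter, Set.mem_ofPred_eq] at hp
        obtain ⟨b1, b2, b3⟩ := hQ1' p hp.1
        simp only [Finset.coe_filter, Set.mem_ofPred_eq]
        exact ⟨b3, p.1, b1, (hcp p b2).resolve_left hp.2⟩
      · intro p hp q hq h
        simp only [Finset.coe_filter, Set.mem_ofPred_eq] at hp hq
        have k1 := (hcp p (hQ1' p hp.1).2.1).resolve_left hp.2
        have k2 := (hcp q (hQ1' q hq.1).2.1).resolve_left hq.2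
        exact hci p q (hQ1' p hp.1).2.1 (hQ1' q hq.1).2.1 (KK_unique k1 (h ▸ k2)) h
    have a3 : (Q1.filter (fun p => RR p.1 (c p))).card +
      (Q1.filter (fun p => ¬ RR p.1 (c p))).card = Q1.card :=
        Finset.card_filter_add_card_filter_not _
    have a4 : (A.filter (fun v => Rp v ∨ Kp v)).card + Y.card = A.card :=
      Finset.card_filter_add_card_filter_not _
    have a5 := Finset.card_union_add_card_inter (A.filter Rp) (A.filter Kp)
    rw [← Finset.filter_or, ← Finset.filter_and] at a5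
    have a6 : (A.filter (fun v => Rp v ∧ Kp v)).card = X.card := rfl
    omega
  set Z1 := Z.filter (fun v => ∀ s ≤ Q.r, up v s ∈ A) with hZ1
  set Z2 := Z.filter (fun v => ¬ ∀ s ≤ Q.r, up v s ∈ A) with hZ2
  have hZ12 : Z1.card + Z2.card = Z.card := Finset.card_filter_add_card_filter_not _
  have hZl : ∀ v ∈ Z, v ∈ A ∧ Last v := fun v hv => Finset.mem_filter.1 hv
  have h2 : (Q.r + 1) * Z1.card ≤ A.card := by
    have := Finset.card_le_card_of_injOn (s := Z1 ×ˢ Finset.range (Q.r + 1)) (t := A)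
      (fun p => up p.1 p.2) ?_ ?_
    · rwa [Finset.card_product, Finset.card_range, mul_comm] at this
    · rintro ⟨v, s⟩ hp
      simp only [Finset.coe_product, Set.mem_prod, Finset.mem_coe, Finset.mem_range] at hp
      exact (Finset.mem_filter.1 hp.1).2 s (by omega)
    · rintro ⟨v, s⟩ hp ⟨w, t⟩ hq h
      simp only [Finset.coe_product, Set.mem_prod, Finset.mem_coe, Finset.mem_range] at hp hq
      have e := up_inj (hZl v (Finset.mem_filter.1 hp.1).1).2
        (hZl w (Finset.mem_filter.1 hq.1).1).2 (by omega) (by omega) h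
      exact Prod.ext e.1 e.2
  have key : ∀ v ∈ Z2, ∃ t, t + 1 ≤ Q.r ∧ up v t ∈ A ∧ up v (t + 1) ∉ A := by
    intro v hv
    have hvn := (Finset.mem_filter.1 hv).2
    have hvA := (hZl v (Finset.mem_filter.1 hv).1).1
    push Not at hvn
    obtain ⟨s0, hs0, hs1⟩ := hvn
    have hex : ∃ s, up v s ∉ A := ⟨s0, hs1⟩
    set s := Nat.find hex with hs
    have hsn : up v s ∉ A := Nat.find_spec hex
    have hsr : s ≤ Q.r := (Nat.find_min' hex hs1).trans hs0
    have hs2 : s ≠ 0 := by
      intro h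
      apply hsn
      rw [h, up_zero]
      exact hvA
    refine ⟨s - 1, by omega, ?_, ?_⟩
    · by_contra h
      exact Nat.find_min hex (by omega : s - 1 < s) h
    · rw [Nat.sub_add_cancel (by omega)]
      exact hsn
  choose! g hg1 hg2 hg3 using key
  have hpar : ∀ v ∈ Z2, RR (up v (g v + 1)) (up v (g v)) := by
    intro v hv
    apply up_RR
    rw [(hZl v (Finset.mem_filter.1 hv).1).2.1]
    exact hg1 v hv
  have hXZ : ∀ v ∈ X, v ∈ Z := by
    intro v hv
    rw [hX, Finset.mem_filter] at hv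
    obtain ⟨hvA, -, ⟨w, -, hw⟩⟩ := hv
    exact Finset.mem_filter.2 ⟨hvA, hw.2.2.2.2.1, hw.2.2.2.2.2.1⟩
  have h3 : X.card ≤ Z1.card + Y.card := by
    have b1 : (X.filter (fun v => ∀ s ≤ Q.r, up v s ∈ A)).card +
      (X.filter (fun v => ¬ ∀ s ≤ Q.r, up v s ∈ A)).card = X.card :=
        Finset.card_filter_add_card_filter_not _
    have b2 : (X.filter (fun v => ∀ s ≤ Q.r, up v s ∈ A)).card ≤ Z1.card := by
      apply Finset.card_le_card
      intro v hv
      rw [Finset.mem_filter] at hv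
      exact Finset.mem_filter.2 ⟨hXZ v hv.1, hv.2⟩
    have b3 : (X.filter (fun v => ¬ ∀ s ≤ Q.r, up v s ∈ A)).card ≤ Y.card := by
      have hm : ∀ v ∈ X.filter (fun v => ¬ ∀ s ≤ Q.r, up v s ∈ A), v ∈ X ∧ v ∈ Z2 := by
        intro v hv
        rw [Finset.mem_filter] at hv
        exact ⟨hv.1, Finset.mem_filter.2 ⟨hXZ v hv.1, hv.2⟩⟩
      apply Finset.card_le_card_of_injOn (fun v => up v (g v))
      · intro v hv
        obtain ⟨hvX, hvZ⟩ := hm v hv
        have hnR : ¬ Rp (up v (g v)) := by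
          rintro ⟨u, huA, hu⟩
          have e := RR_unique hu (hpar v hvZ)
          exact hg3 v hvZ (e ▸ huA)
        have hnK : ¬ Kp (up v (g v)) := by
          rintro ⟨u, huA, hu⟩
          have hl := hu.2.2.2.2.1
          have hvl := (hZl v (hXZ v hvX)).2.1
          have hg1' := hg1 v hvZ
          rw [(up_l (v := v) (s := g v) (by omega)).1] at hl
          have h0 : g v = 0 := by omega
          apply hnR
          rw [h0, up_zero]
          exact ((Finset.mem_filter.1 hvX).2).1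
        exact Finset.mem_coe.2 (Finset.mem_filter.2 ⟨hg2 v hvZ, fun h => h.elim hnR hnK⟩)
      · intro v hv w hw h
        obtain ⟨hvX, hvZ⟩ := hm v hv
        obtain ⟨hwX, hwZ⟩ := hm w hw
        have := hg1 v hvZ
        have := hg1 w hwZ
        exact (up_inj (hZl v (hXZ v hvX)).2 (hZl w (hXZ w hwX)).2 (by omega) (by omega) h).1
    omega
  refine ⟨Q2.card + Z2.card, ?_, ?_⟩
  · set F1 := Q2.image (fun p => s(p.1, c p)) with hF1
    set F2 := Z2.image (fun v => s(up v (g v), up v (g v + 1))) with hF2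
    have hc1 : F1.card = Q2.card := by
      apply Finset.card_image_of_injOn
      intro p hp q hq h
      obtain ⟨p1, p2, p3⟩ := hQ2' p hp
      obtain ⟨q1, q2, q3⟩ := hQ2' q hq
      rcases Sym2.eq_iff.mp h with ⟨e1, e2⟩ | ⟨e1, e2⟩
      · exact hci p q p2 q2 e1 e2
      · exact absurd (e1 ▸ p1) q3
    have hc2 : F2.card = Z2.card := by
      apply Finset.card_image_of_injOn
      intro v hv w hw h
      have v1 := hg1 v hv
      have w1 := hg1 w hw
      rcases Sym2.eq_iff.mp h with ⟨e1, e2⟩ | ⟨e1, e2⟩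
      · exact (up_inj (hZl v (Finset.mem_filter.1 hv).1).2 (hZl w (Finset.mem_filter.1 hw).1).2
          (by omega) (by omega) e1).1
      · exact absurd (e1 ▸ hg2 v hv) (hg3 w hw)
    have hdis : Disjoint F1 F2 := by
      rw [Finset.disjoint_left]
      intro e he he'
      obtain ⟨p, hp, rfl⟩ := Finset.mem_image.1 he
      obtain ⟨v, hv, hv'⟩ := Finset.mem_image.1 he'
      obtain ⟨p1, p2, p3⟩ := hQ2' p hp
      rcases Sym2.eq_iff.mp hv' with ⟨e1, e2⟩ | ⟨e1, e2⟩
      · have k1 := hcp p p2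
        have k2 := hpar v hv
        rw [e1, e2] at k2
        exact PW_asymm k1 (Or.inl k2)
      · exact absurd (e2 ▸ p1) (hg3 v hv)
    have hsub : ((F1 ∪ F2 : Finset (Sym2 (Wx Q))) : Set (Sym2 (Wx Q))) ⊆
        edgeBoundary (GW Q) (A : Set (Wx Q)) := by
      intro e he
      rcases Finset.mem_union.1 (Finset.mem_coe.1 he) with he | he
      · obtain ⟨p, hp, rfl⟩ := Finset.mem_image.1 he
        obtain ⟨p1, p2, p3⟩ := hQ2' p hp
        exact ⟨p.1, c p, p1, p3, Or.inl (hcp p p2), rfl⟩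
      · obtain ⟨v, hv, rfl⟩ := Finset.mem_image.1 he
        exact ⟨up v (g v), up v (g v + 1), hg2 v hv, hg3 v hv, Or.inr (Or.inl (hpar v hv)), rfl⟩
    have := Set.encard_le_encard hsub
    rw [Set.encard_coe_eq_coe_finsetCard, Finset.card_union_of_disjoint hdis, hc1, hc2] at this
    exact this
  · have h4 : Q.g * A.card ≤ (Q2.card + Z2.card) + A.card + 2 * Z1.card := by omega
    have h5 : (Q.r + 1) * (Q.g * A.card) ≤
      (Q.r + 1) * ((Q2.card + Z2.card) + A.card + 2 * Z1.card) := Nat.mul_le_mul_left _ h4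
    have h6 : (Q.r + 1) * ((Q2.card + Z2.card) + A.card + 2 * Z1.card) =
      (Q.r + 1) * (Q2.card + Z2.card) + (Q.r + 1) * A.card + 2 * ((Q.r + 1) * Z1.card) := by
        ring
    omega

theorem cheeger_geW (c : ENNReal)
    (hc : c * ((Q.r + 1 : ℕ) : ENNReal) + ((Q.r + 1 : ℕ) : ENNReal) + 2 ≤
      ((Q.r + 1 : ℕ) : ENNReal) * (Q.g : ENNReal)) : c ≤ cheeger (GW Q) := by
  unfold cheeger
  refine le_iInf₂ fun A hA => ?_
  have hA0 : (A.card : ENNReal) ≠ 0 := by
    exact_mod_cast (Finset.card_pos.mpr hA).ne'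
  rw [ENNReal.le_div_iff_mul_le (Or.inl hA0) (Or.inl (ENNReal.natCast_ne_top _))]
  obtain ⟨M, hM1, hM2⟩ := boundary_geW A
  have h1 : (M : ENNReal) ≤ (((edgeBoundary (GW Q) (A : Set (Wx Q))).encard : ℕ∞) : ENNReal) := by
    exact_mod_cast hM1
  refine le_trans ?_ h1
  have h2 : ((Q.r + 1 : ℕ) : ENNReal) * (Q.g * A.card) ≤
      (Q.r + 1 : ℕ) * M + (Q.r + 1 : ℕ) * A.card + 2 * A.card := by
    exact_mod_cast hM2
  set R : ENNReal := ((Q.r + 1 : ℕ) : ENNReal) with hR
  have hR0 : R ≠ 0 := by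
    rw [hR]; exact_mod_cast Nat.succ_ne_zero Q.r
  have hRt : R ≠ ⊤ := ENNReal.natCast_ne_top _
  set a : ENNReal := (A.card : ENNReal) with ha
  have hat : a ≠ ⊤ := ENNReal.natCast_ne_top _
  have h3 : (c * R + R + 2) * a ≤ R * Q.g * a := mul_le_mul_left hc a
  have h4 : c * a * R + (R * a + 2 * a) ≤ M * R + (R * a + 2 * a) := by
    calc c * a * R + (R * a + 2 * a) = (c * R + R + 2) * a := by ring
      _ ≤ R * Q.g * a := h3
      _ = R * (Q.g * a) := by ring
      _ ≤ R * M + R * a + 2 * a := h2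
      _ = M * R + (R * a + 2 * a) := by ring
  have h5 : c * a * R ≤ M * R := by
    refine (ENNReal.add_le_add_iff_right ?_).1 h4
    exact ENNReal.add_ne_top.2 ⟨ENNReal.mul_ne_top hRt hat, ENNReal.mul_ne_top (by norm_num) hat⟩
  exact (ENNReal.mul_le_mul_iff_left hR0 hRt).1 h5

end Pool.Agent.Y729.HT
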