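import Pool.Agent.Y729.HT.Z2
import Pool.Agent.Y729.HT.F

set_option autoImplicit false

namespace Pool.Agent.Y729.HT

/-! ### Arithmetic of the levels of the blocks -/

section ar
variable {P : Pm}

/-- the separation, in block levels -/
def Pm.K (P : Pm) : ℕ := 2 * (P.p * P.N) + 2 * P.p + 1

theorem ar1 {i j : ℕ} (hi : P.N ≤ i) (hij : i < j) : P.K ≤ P.D i + (P.L j - P.L i) + P.D j := by
  have h7 := L_diff (P := P) hij
  have h8 := P.D_ge' (i := j) (by omega)
  have h9 := P.D_ge hi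
  unfold Pm.K
  omega

theorem ar2 {i : ℕ} (h : 2 * P.N < i) : P.K ≤ P.D i + P.D i := by
  have hN := P.hN
  have hp := P.hp
  have h8 := P.D_big (i := i) (by omega)
  have h9 : 2 * P.p ≤ P.p * P.N := by
    rw [mul_comm]
    exact Nat.mul_le_mul_left _ (by omega)
  unfold Pm.K
  omega

theorem ar3 {i : ℕ} (h4 : P.N ≤ i) : P.K ≤ P.D i + P.L i := by
  have hN := P.hN
  have h5 := P.D_ge h4
  have h6 : (P.p + 1) * P.N ≤ (P.p + 1) * i := Nat.mul_le_mul_left _ h4
  have h7 : P.L i = (P.p + 1) * i + P.r := rfl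
  rw [add_mul, one_mul] at h6
  unfold Pm.K
  omega

theorem ar4 {i j : ℕ} (hu : i ≤ 2 * P.N) (hv : 2 * P.N < j)
    (hd : P.D i + (P.L j - P.L i) + P.D j ≤ 2 * P.K) :
    2 * P.N ≤ i + (3 * P.p + 1) ∧ j ≤ 2 * P.N + 3 := by
  have hN := P.hN
  have hDv := P.D_big (i := j) (by omega)
  have e0 : (P.p + 1) * (2 * P.N + 1) ≤ (P.p + 1) * j := Nat.mul_le_mul_left _ hv
  have e1 : (P.p + 1) * (2 * P.N + 1) = 2 * (P.p * P.N) + 2 * P.N + P.p + 1 := by ring
  have e2 : P.L j = (P.p + 1) * j + P.r := rfl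
  have hDu := P.D_small hu
  have e3 : P.L i = (P.p + 1) * i + P.r := rfl
  have e4 : (P.p + 1) * i = P.p * i + i := by ring
  unfold Pm.K at hd
  refine ⟨by omega, ?_⟩
  by_contra h5
  have e5 : (P.p + 1) * (2 * P.N + 4) ≤ (P.p + 1) * j :=
    Nat.mul_le_mul_left _ (by omega)
  have e6 : (P.p + 1) * (2 * P.N + 4) = 2 * (P.p * P.N) + 2 * P.N + 4 * P.p + 4 := by ring
  omega

theorem ar5 {j : ℕ} (hv : 2 * P.N < j) : 2 * P.K < P.D j + P.L j := by
  have hN := P.hN
  have hDv := P.D_big (i := j) (by omega)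
  have e0 : (P.p + 1) * (2 * P.N + 1) ≤ (P.p + 1) * j := Nat.mul_le_mul_left _ hv
  have e1 : (P.p + 1) * (2 * P.N + 1) = 2 * (P.p * P.N) + 2 * P.N + P.p + 1 := by ring
  have e2 : P.L j = (P.p + 1) * j + P.r := rfl
  unfold Pm.K
  omega

end ar

variable {Q : Qm}

/-- the level of a vertex -/
def lev (w : Wx Q) : ℕ := (Q.r + 1) * w.B.j + w.l

/-- the depth of the hub trees -/
def Qm.RD (Q : Qm) (i : ℕ) : ℕ := (Q.r + 1) * Q.P.D i

/-- the levels at which the hub trees are attached -/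
def Qm.RL (Q : Qm) (i : ℕ) : ℕ := (Q.r + 1) * Q.P.L i + Q.r

theorem PW_cases {u v : Wx Q} (h : PW u v) :
    (u.B.i = 0 ∧ v.B.i = 0 ∧ lev v = lev u + 1) ∨
    (0 < u.B.i ∧ v.B.i = u.B.i ∧ lev v = lev u + 1 ∧ ∀ s : Vx Q.P, (Mt s v.B ↔ Mt s u.B)) ∨
    (0 < u.B.i ∧ v.B.i = 0 ∧ lev u + 1 = Q.RD u.B.i ∧ lev v = Q.RL u.B.i) := by
  unfold lev
  rcases h with (⟨a1, a2, a3⟩ | ⟨a1, a2, a3, a4, a5⟩) | ⟨a1, a2, a3, a4, a5, a6, a7⟩
  · rw [a1, a2]
    rcases Nat.eq_zero_or_pos u.B.i with h0 | h0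
    · left
      exact ⟨h0, h0, by ring⟩
    · right; left
      exact ⟨h0, rfl, by ring, fun s => Iff.rfl⟩
  · rcases a1 with ⟨b1, b2, b3, b4⟩ | ⟨b1, b2, b3, b4⟩ | ⟨b1, b2, b3, b4, b5, b6⟩
    · left
      refine ⟨b1, b2, ?_⟩
      rw [a3, a4, b3]; ring
    · right; left
      refine ⟨b1, b2, ?_, fun s => mt_iff b2 b4 b3⟩
      rw [a3, a4, b3]; ring
    · omega
  · right; right
    rcases a1 with ⟨b1, b2, b3, b4⟩ | ⟨b1, b2, b3, b4⟩ | ⟨b1, b2, b3, b4, b5, b6⟩
    · omega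
    · omega
    · refine ⟨b1, b2, ?_, ?_⟩
      · unfold Qm.RD
        rw [← b3, a4]; ring
      · unfold Qm.RL
        rw [a5, b4]

theorem lev_lt {w : Wx Q} (h : 0 < w.B.i) : lev w < Q.RD w.B.i := by
  have h1 := w.hl
  have h2 : w.B.j + 1 ≤ Q.P.D w.B.i := by
    have := w.B.hv
    omega
  have h3 : (Q.r + 1) * (w.B.j + 1) ≤ (Q.r + 1) * Q.P.D w.B.i := Nat.mul_le_mul_left _ h2
  rw [mul_add, mul_one] at h3
  unfold lev Qm.RD
  omega

theorem parent_in {w : Wx Q} (h : 0 < w.l) : ∃ u : Wx Q, PW u w ∧ u.B = w.B ∧ lev u + 1 = lev w := by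
  have h1 := up_RR (v := w) (s := 0) (by omega)
  rw [up_zero] at h1
  have h2 := up_l (v := w) (s := 1) (by omega)
  refine ⟨up w 1, Or.inl h1, h2.2, ?_⟩
  unfold lev
  rw [h2.1, h2.2]
  omega

theorem parent_reg {w : Wx Q} (h : w.l = 0) {u : Vx Q.P} (hu : Par u w.B)
    (ht : u.i = 0 ↔ w.B.i = 0) (hj : u.j + 1 = w.B.j) :
    ∃ v : Wx Q, PW v w ∧ v.B = u ∧ lev v + 1 = lev w := by
  have h1 := slot_lt hu
  have h2 := Q.hbg
  refine ⟨⟨u, Q.r, slot u w.B / Q.g, le_rfl, ?_⟩, Or.inl (Or.inr ⟨hu, ht, rfl, h, rfl⟩), rfl, ?_⟩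
  · apply Nat.div_lt_of_lt_mul
    rw [h2, pow_succ, mul_comm] at h1
    exact h1
  · show (Q.r + 1) * u.j + Q.r + 1 = (Q.r + 1) * w.B.j + w.l
    rw [h, ← hj]; ring

theorem parent_link {w : Wx Q} (h : Last w) (h0 : w.B.i = 0) {u : Vx Q.P} (hu : Par u w.B)
    (hui : 0 < u.i) :
    ∃ v : Wx Q, PW v w ∧ v.B = u := by
  have h1 := slot_lt hu
  have h2 := Q.hbg
  refine ⟨⟨u, Q.r, slot u w.B / Q.g, le_rfl, ?_⟩,
    Or.inr ⟨hu, hui, h0, rfl, h.1, h.2, rfl⟩, rfl⟩
  apply Nat.div_lt_of_lt_mul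
  rw [h2, pow_succ, mul_comm] at h1
  exact h1

theorem base_parent {w : Wx Q} (h0 : w.B.i = 0) (h : 0 < lev w) :
    ∃ u : Wx Q, PW u w ∧ u.B.i = 0 ∧ lev u + 1 = lev w := by
  by_cases hl : 0 < w.l
  · obtain ⟨u, h1, h2, h3⟩ := parent_in hl
    exact ⟨u, h1, by rw [h2]; exact h0, h3⟩
  · have hl0 : w.l = 0 := by omega
    have hj : 0 < w.B.j := by
      by_contra hj
      have : w.B.j = 0 := by omega
      unfold lev at h
      rw [this, hl0] at h
      omega
    have hp := anc_par w.B h0 0 (by omega)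
    rw [anc_zero] at hp
    obtain ⟨v, h1, h2, h3⟩ := parent_reg hl0 hp ⟨fun _ => h0, fun _ => rfl⟩ (by
      show w.B.j - 1 + 1 = w.B.j
      omega)
    exact ⟨v, h1, by rw [h2]; rfl, h3⟩

theorem hub_parent {w : Wx Q} (h0 : 0 < w.B.i) (h : 0 < lev w) :
    ∃ u : Wx Q, PW u w ∧ u.B.i = w.B.i ∧ lev u + 1 = lev w := by
  by_cases hl : 0 < w.l
  · obtain ⟨u, h1, h2, h3⟩ := parent_in hl
    exact ⟨u, h1, by rw [h2], h3⟩
  · have hl0 : w.l = 0 := by omega
    have hj : 0 < w.B.j := by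
      by_contra hj
      have : w.B.j = 0 := by omega
      unfold lev at h
      rw [this, hl0] at h
      omega
    obtain ⟨p, hp, hpi, hpj⟩ := exists_hub_parent w.B h0 hj
    obtain ⟨v, h1, h2, h3⟩ := parent_reg hl0 hp (by omega) hpj
    exact ⟨v, h1, by rw [h2]; exact hpi, h3⟩

/-- the root of the base tree -/
def rtW (Q : Qm) : Wx Q := ⟨rt Q.P, 0, 0, Nat.zero_le _, by simp⟩

theorem block_root (u : Vx Q.P) (h1 : u.i = 0) (h2 : u.j = 0) : u = rt Q.P := by
  have h3 : u.x < Q.P.b ^ u.j := by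
    rcases u.hv with h' | h'
    · exact h'.2
    · omega
  rw [h2, pow_zero] at h3
  exact Vx.ext h1 h2 (by show u.x = 0; omega)

theorem lev_zero {w : Wx Q} (h : lev w = 0) : w.B.j = 0 ∧ w.l = 0 ∧ w.y = 0 := by
  unfold lev at h
  have h1 : w.l = 0 := by omega
  have h2 : (Q.r + 1) * w.B.j = 0 := by omega
  have h3 : w.B.j = 0 := by
    rcases Nat.mul_eq_zero.1 h2 with h | h
    · omega
    · exact h
  have h4 := w.hy
  rw [h1, pow_zero] at h4
  exact ⟨h3, h1, by omega⟩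

theorem eq_rtW {w : Wx Q} (h0 : w.B.i = 0) (h : lev w = 0) : w = rtW Q := by
  obtain ⟨h1, h2, h3⟩ := lev_zero h
  exact Wx.ext (block_root _ h0 h1) h2 h3

theorem reach_base (w : Wx Q) (h : w.B.i = 0) : (GW Q).Reachable (rtW Q) w := by
  induction hl : lev w using Nat.strong_induction_on generalizing w with
  | _ l ih =>
    rcases Nat.eq_zero_or_pos (lev w) with h2 | h2
    · rw [eq_rtW h h2]
    · obtain ⟨u, h3, h4, h5⟩ := base_parent h h2
      have hadj : (GW Q).Adj u w := Or.inl h3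
      exact (ih (lev u) (by omega) u h4 rfl).trans hadj.reachable

theorem reach_downW (v : Wx Q) : ∃ w : Wx Q, w.B.i = 0 ∧ (GW Q).Reachable v w := by
  induction hl : Q.RD v.B.i - lev v using Nat.strong_induction_on generalizing v with
  | _ m ih =>
    by_cases h0 : v.B.i = 0
    · exact ⟨v, h0, SimpleGraph.Reachable.refl _⟩
    · have hok : v.l < Q.r ∨ Q.g * v.y + 0 < Q.P.b := by
        by_cases h : v.l < Q.r
        · exact Or.inl h
        · right
          have h1 := v.hl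
          have h2 := v.hy
          have h3 : v.l = Q.r := by omega
          rw [h3] at h2
          have h4 : Q.g * (v.y + 1) ≤ Q.g * Q.g ^ Q.r := Nat.mul_le_mul_left _ h2
          have h5 : Q.g * Q.g ^ Q.r = Q.P.b + 1 := by rw [Q.hbg]; ring
          have h6 := Q.hg
          rw [mul_add, mul_one] at h4
          omega
      obtain ⟨w, hw, -⟩ := exists_child v 0 Q.g_pos hok
      have hadj : (GW Q).Adj v w := Or.inl hw
      rcases PW_cases hw with ⟨a1, a2, a3⟩ | ⟨a1, a2, a3, -⟩ | ⟨a1, a2, a3, a4⟩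
      · exact absurd a1 h0
      · have h1 := lev_lt a1
        obtain ⟨z, hz, hr⟩ := ih (Q.RD w.B.i - lev w) (by rw [a2, a3]; omega) w rfl
        exact ⟨z, hz, hadj.reachable.trans hr⟩
      · exact ⟨w, a2, hadj.reachable⟩

theorem connectedW : (GW Q).Connected := by
  have key : ∀ v, (GW Q).Reachable (rtW Q) v := by
    intro v
    obtain ⟨w, hw, hr⟩ := reach_downW v
    exact (reach_base w hw).trans hr.symm
  have : Nonempty (Wx Q) := ⟨rtW Q⟩
  exact ⟨fun u v => (key u).symm.trans (key v)⟩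

theorem infiniteW : Infinite (Wx Q) := by
  have := infinite (P := Q.P)
  refine Infinite.of_injective
    (fun B : Vx Q.P => (⟨B, 0, 0, Nat.zero_le _, by simp⟩ : Wx Q)) ?_
  intro a b h
  exact congrArg Wx.B h

/-- the net -/
def SW (Q : Qm) : Set (Wx Q) := {w | lev w = 0}

theorem dist_base (w : Wx Q) (h : w.B.i = 0) : (GW Q).dist (rtW Q) w ≤ lev w := by
  induction hl : lev w using Nat.strong_induction_on generalizing w with
  | _ l ih =>
    rcases Nat.eq_zero_or_pos (lev w) with h2 | h2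
    · rw [eq_rtW h h2, SimpleGraph.dist_self]
      exact Nat.zero_le _
    · obtain ⟨u, h3, h4, h5⟩ := base_parent h h2
      have h6 : (GW Q).dist u w = 1 := SimpleGraph.dist_eq_one_iff_adj.2 (Or.inl h3)
      have h7 := ih (lev u) (by omega) u h4 rfl
      have h8 := connectedW.dist_triangle (u := rtW Q) (v := u) (w := w)
      omega

theorem dist_hub (w : Wx Q) (h : 0 < w.B.i) :
    ∃ s ∈ SW Q, s.B.i = w.B.i ∧ (GW Q).dist s w ≤ lev w := by
  induction hl : lev w using Nat.strong_induction_on generalizing w with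
  | _ l ih =>
    rcases Nat.eq_zero_or_pos (lev w) with h2 | h2
    · exact ⟨w, h2, rfl, by rw [SimpleGraph.dist_self]; exact Nat.zero_le _⟩
    · obtain ⟨u, h3, h4, h5⟩ := hub_parent h h2
      have h6 : (GW Q).dist u w = 1 := SimpleGraph.dist_eq_one_iff_adj.2 (Or.inl h3)
      obtain ⟨s, hs, hsi, h7⟩ := ih (lev u) (by omega) u (by omega) rfl
      have h8 := connectedW.dist_triangle (u := s) (v := u) (w := w)
      exact ⟨s, hs, by omega, by omega⟩

theorem dist_up_base (w : Wx Q) (h : w.B.i = 0) (s : ℕ) (hs : s ≤ lev w) :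
    ∃ u : Wx Q, u.B.i = 0 ∧ lev u + s = lev w ∧ (GW Q).dist u w ≤ s := by
  induction s with
  | zero => exact ⟨w, h, rfl, by rw [SimpleGraph.dist_self]⟩
  | succ s ih =>
    obtain ⟨u, h1, h2, h3⟩ := ih (by omega)
    obtain ⟨v, h4, h5, h6⟩ := base_parent h1 (by omega)
    have h7 : (GW Q).dist v u = 1 := SimpleGraph.dist_eq_one_iff_adj.2 (Or.inl h4)
    have h8 := connectedW.dist_triangle (u := v) (v := u) (w := w)
    exact ⟨v, h5, by omega, by omega⟩

theorem dist_up (w : Wx Q) (s : ℕ) (hs : s ≤ w.l) : (GW Q).dist (up w s) w ≤ s := by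
  induction s with
  | zero => rw [up_zero, SimpleGraph.dist_self]
  | succ s ih =>
    have h1 := ih (by omega)
    have h7 : (GW Q).dist (up w (s + 1)) (up w s) = 1 :=
      SimpleGraph.dist_eq_one_iff_adj.2 (Or.inl (Or.inl (up_RR hs)))
    have h8 := connectedW.dist_triangle (u := up w (s + 1)) (v := up w s) (w := w)
    omega

/-- the distance of the net -/
def Qm.KW (Q : Qm) : ℕ := (Q.r + 1) * Q.P.K

theorem coverW (v : Wx Q) : ∃ s ∈ SW Q, (GW Q).dist s v + 1 ≤ Q.KW := by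
  have hN := Q.P.hN
  have hp := Q.P.hp
  have hRp : Q.r + 1 ≤ (Q.r + 1) * Q.P.p := Nat.le_mul_of_pos_right _ hp
  have hK : Q.KW = (Q.r + 1) * (2 * (Q.P.p * Q.P.N)) + (Q.r + 1) * Q.P.p +
      (Q.r + 1) * (Q.P.p + 1) := by
    unfold Qm.KW Pm.K; ring
  by_cases h0 : v.B.i = 0
  · rcases Nat.lt_or_ge (lev v) ((Q.r + 1) * (Q.P.p + 1) * Q.P.N) with h1 | h1
    · refine ⟨rtW Q, ?_, ?_⟩
      · show (Q.r + 1) * 0 + 0 = 0
        simp
      · have h2 := dist_base v h0
        have h3 : Q.P.N ≤ Q.P.p * Q.P.N := Nat.le_mul_of_pos_left _ hp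
        have h4 : (Q.r + 1) * Q.P.N ≤ (Q.r + 1) * (Q.P.p * Q.P.N) := Nat.mul_le_mul_left _ h3
        have h5 : (Q.r + 1) * (Q.P.p + 1) * Q.P.N = (Q.r + 1) * (Q.P.p * Q.P.N) +
          (Q.r + 1) * Q.P.N := by ring
        have h6 : (Q.r + 1) * (2 * (Q.P.p * Q.P.N)) = 2 * ((Q.r + 1) * (Q.P.p * Q.P.N)) := by
          ring
        omega
    · set T := (Q.r + 1) * (Q.P.p + 1) with hT
      have hTpos : 0 < T := by rw [hT]; positivity
      set i := lev v / T with hi
      have h2 := Nat.div_add_mod (lev v) T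
      have h3 := Nat.mod_lt (lev v) hTpos
      rw [← hi] at h2
      have h4 : Q.P.N ≤ i := by
        rw [hi, Nat.le_div_iff_mul_le hTpos, mul_comm]
        exact h1
      obtain ⟨u, hu0, hul, hud⟩ := dist_up_base v h0 (lev v % T) (Nat.mod_le _ _)
      have hul' : lev u = T * i := by omega
      have e := mul_add_inj (p := Q.r) (a := u.B.j) (b := (Q.P.p + 1) * i) (s := u.l) (t := 0)
        u.hl (Nat.zero_le _) (by
          have : lev u = (Q.r + 1) * u.B.j + u.l := rfl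
          rw [← this, hul', hT]; ring)
      obtain ⟨p, hp1, hp2, hp3⟩ := exists_hub_above u.B hu0 i h4 (by
        rw [e.1]; unfold Pm.L; rw [Q.hr0]; rfl) (by rw [Q.hr0]; simp [Nat.mod_one])
      have hgr := Q.gr_pos
      set z : Wx Q := ⟨u.B, Q.r, Q.g ^ Q.r - 1, le_rfl, by omega⟩ with hz
      have hzL : Last z := ⟨rfl, rfl⟩
      obtain ⟨y, hy1, hy2⟩ := parent_link hzL hu0 hp1 (by omega)
      have hyl : lev y + 1 = Q.RD i := by
        rcases PW_cases hy1 with ⟨a1, a2, a3⟩ | ⟨a1, a2, a3, -⟩ | ⟨a1, a2, a3, a4⟩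
        · rw [hy2] at a1; omega
        · rw [hy2] at a2
          have : z.B.i = 0 := hu0
          omega
        · rw [hy2, hp2] at a3; exact a3
      obtain ⟨s, hs, hsi, hsd⟩ := dist_hub y (by rw [hy2]; omega)
      have hzu : up z Q.r = u := by
        have e3 := up_l (v := z) (s := Q.r) le_rfl
        have e4 : (up z Q.r).l = 0 := by
          rw [e3.1]
          show Q.r - Q.r = 0
          omega
        have e5 := (up z Q.r).hy
        have e6 := u.hy
        rw [e4, pow_zero] at e5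
        rw [e.2, pow_zero] at e6
        exact Wx.ext e3.2 (by rw [e4, e.2]) (by omega)
      have d0 := dist_up z Q.r le_rfl
      rw [hzu, SimpleGraph.dist_comm] at d0
      have d1 := connectedW.dist_triangle (u := s) (v := y) (w := v)
      have d2 := connectedW.dist_triangle (u := y) (v := z) (w := v)
      have d3 := connectedW.dist_triangle (u := z) (v := u) (w := v)
      have d4 : (GW Q).dist y z = 1 := SimpleGraph.dist_eq_one_iff_adj.2 (Or.inl hy1)
      have d5 : Q.RD i ≤ (Q.r + 1) * (2 * (Q.P.p * Q.P.N)) :=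
        Nat.mul_le_mul_left _ (Q.P.D_le i)
      exact ⟨s, hs, by omega⟩
  · obtain ⟨s, hs, hsi, hd⟩ := dist_hub v (by omega)
    have h1 := lev_lt (w := v) (by omega)
    have d5 : Q.RD v.B.i ≤ (Q.r + 1) * (2 * (Q.P.p * Q.P.N)) :=
      Nat.mul_le_mul_left _ (Q.P.D_le _)
    exact ⟨s, hs, by omega⟩

open Classical in
/-- a lower bound for the distance to the hub root `s` -/
noncomputable def potW (s v : Wx Q) : ℕ :=
  if Mt s.B v.B then lev v
  else Q.RD s.B.i +
    (if v.B.i = 0 then (lev v - Q.RL s.B.i) + (Q.RL s.B.i - lev v)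
      else ((Q.RL v.B.i - Q.RL s.B.i) + (Q.RL s.B.i - Q.RL v.B.i)) + (Q.RD v.B.i - lev v))

theorem potW_par {s u v : Wx Q} (hs : 0 < s.B.i) (h : PW u v) :
    potW s u ≤ potW s v + 1 ∧ potW s v ≤ potW s u + 1 := by
  rcases PW_cases h with ⟨hu, hv, hl⟩ | ⟨hu, hv, hl, hm⟩ | ⟨hu, hv, hl, hl'⟩
  · have m1 : ¬ Mt s.B u.B := fun h => by have := h.1; omega
    have m2 : ¬ Mt s.B v.B := fun h => by have := h.1; omega
    unfold potW
    rw [if_neg m1, if_neg m2, if_pos hu, if_pos hv]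
    omega
  · have h1 := lev_lt (w := v) (by omega)
    rw [hv] at h1
    unfold potW
    by_cases m1 : Mt s.B u.B
    · have m2 := (hm s.B).2 m1
      rw [if_pos m1, if_pos m2]
      omega
    · have m2 : ¬ Mt s.B v.B := fun h => m1 ((hm s.B).1 h)
      rw [if_neg m1, if_neg m2, if_neg (by omega), if_neg (by omega), hv]
      omega
  · have m2 : ¬ Mt s.B v.B := fun h => by have := h.1; omega
    unfold potW
    rw [if_neg m2, if_pos hv]
    by_cases m1 : Mt s.B u.B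
    · have m3 := m1.1
      rw [if_pos m1]
      rw [m3] at hl hl'
      omega
    · rw [if_neg m1, if_neg (by omega)]
      omega

theorem potW_lip {s : Wx Q} (hs : 0 < s.B.i) (u v : Wx Q) :
    potW s v ≤ potW s u + (GW Q).dist u v := by
  apply lip connectedW
  intro u v h
  rcases h with h | h
  · exact (potW_par hs h).2
  · exact (potW_par hs h).1

theorem potW_self {s : Wx Q} (hsl : lev s = 0) : potW s s = 0 := by
  have m : Mt s.B s.B := ⟨rfl, by rw [(lev_zero hsl).1, Q.P.n_zero, Nat.div_one]⟩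
  unfold potW
  rw [if_pos m, hsl]

theorem RL_sub (i j : ℕ) : Q.RL j - Q.RL i = (Q.r + 1) * (Q.P.L j - Q.P.L i) := by
  unfold Qm.RL
  rw [Nat.mul_sub]
  omega

theorem dist_hub_rootW {s : Wx Q} (hs : 0 < s.B.i) (hsl : lev s = 0) :
    (Q.r + 1) * (Q.P.D s.B.i + Q.P.L s.B.i) ≤ (GW Q).dist s (rtW Q) := by
  have h1 := potW_lip hs s (rtW Q)
  have m : ¬ Mt s.B (rtW Q).B := fun h => by
    have := h.1
    change 0 = s.B.i at this
    omega
  have hl0 : lev (rtW Q) = 0 := by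
    show (Q.r + 1) * 0 + 0 = 0
    simp
  have e : potW s (rtW Q) = Q.RD s.B.i + Q.RL s.B.i := by
    unfold potW
    rw [if_neg m, if_pos (show (rtW Q).B.i = 0 from rfl), hl0]
    omega
  rw [potW_self hsl, e] at h1
  unfold Qm.RD Qm.RL at h1
  rw [mul_add]
  omega

theorem dist_hub_hubW {s t : Wx Q} (hs : 0 < s.B.i) (hsl : lev s = 0) (ht : 0 < t.B.i)
    (htl : lev t = 0) (hst : s ≠ t) :
    (Q.r + 1) * (Q.P.D s.B.i + ((Q.P.L t.B.i - Q.P.L s.B.i) + (Q.P.L s.B.i - Q.P.L t.B.i)) +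
      Q.P.D t.B.i) ≤ (GW Q).dist s t := by
  have h1 := potW_lip hs s t
  obtain ⟨s1, s2, s3⟩ := lev_zero hsl
  obtain ⟨t1, t2, t3⟩ := lev_zero htl
  have m : ¬ Mt s.B t.B := by
    rintro ⟨h, h'⟩
    apply hst
    refine Wx.ext (Vx.ext h.symm (by omega) ?_) (by omega) (by omega)
    rw [← h', t1, Q.P.n_zero, Nat.div_one]
  have e : potW s t = Q.RD s.B.i +
      (((Q.RL t.B.i - Q.RL s.B.i) + (Q.RL s.B.i - Q.RL t.B.i)) + Q.RD t.B.i) := by
    unfold potW
    rw [if_neg m, if_neg (by omega), htl]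
    rfl
  rw [potW_self hsl, e, RL_sub, RL_sub] at h1
  unfold Qm.RD at h1
  rw [mul_add, mul_add, mul_add]
  omega

theorem sepW (s : Wx Q) (hs : s ∈ SW Q) (t : Wx Q) (ht : t ∈ SW Q) (hst : s ≠ t) :
    Q.KW ≤ (GW Q).dist s t := by
  have hs' : lev s = 0 := hs
  have ht' : lev t = 0 := ht
  unfold Qm.KW
  rcases Nat.eq_zero_or_pos s.B.i with h1 | h1
  · rcases Nat.eq_zero_or_pos t.B.i with h3 | h3
    · exact absurd ((eq_rtW h1 hs').trans (eq_rtW h3 ht').symm) hst
    · rw [eq_rtW h1 hs', SimpleGraph.dist_comm]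
      have h4 : Q.P.N ≤ t.B.i := by have := t.B.hv; omega
      exact (Nat.mul_le_mul_left _ (ar3 h4)).trans (dist_hub_rootW h3 ht')
  · have h4 : Q.P.N ≤ s.B.i := by have := s.B.hv; omega
    rcases Nat.eq_zero_or_pos t.B.i with h3 | h3
    · rw [eq_rtW h3 ht']
      exact (Nat.mul_le_mul_left _ (ar3 h4)).trans (dist_hub_rootW h1 hs')
    · have h5 : Q.P.N ≤ t.B.i := by have := t.B.hv; omega
      refine le_trans (Nat.mul_le_mul_left _ ?_) (dist_hub_hubW h1 hs' h3 ht' hst)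
      rcases Nat.lt_trichotomy s.B.i t.B.i with h6 | h6 | h6
      · have := ar1 h4 h6
        omega
      · have h7 : ¬ s.B.i ≤ 2 * Q.P.N := fun h' => hst (by
          obtain ⟨s1, s2, s3⟩ := lev_zero hs'
          obtain ⟨t1, t2, t3⟩ := lev_zero ht'
          exact Wx.ext (eq_of_small h1 s1 t1 h6 h') (by omega) (by omega))
        have := ar2 (P := Q.P) (i := s.B.i) (by omega)
        rw [← h6]
        omega
      · have := ar1 h5 h6
        omega

theorem isNetW : IsNet (GW Q) Q.KW (SW Q) := by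
  refine ⟨fun s hs t ht hst => sepW s hs t ht hst, ?_⟩
  intro T hT hST v hv
  obtain ⟨s, hs, hd⟩ := coverW v
  by_contra hvS
  have hne : s ≠ v := fun h => hvS (h ▸ hs)
  have := hT s (hST hs) v hv hne
  omega

end Pool.Agent.Y729.HT
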