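import Pool.Agent.Y729.HT.Z3
import Pool.Agent.Y729.HT.Conv

set_option autoImplicit false

namespace Pool.Agent.Y729.HT

variable {Q : Qm}

theorem SW_zero (v : SW Q) : v.1.B.j = 0 ∧ v.1.l = 0 ∧ v.1.y = 0 := lev_zero v.2

/-- the `t`-th vertex of the set with small boundary -/
def aW (Q : Qm) (t : Fin (Q.P.N + 2)) : SW Q :=
  ⟨⟨(a Q.P t).1, 0, 0, Nat.zero_le _, by simp⟩, by
    show (Q.r + 1) * (a Q.P t).1.j + 0 = 0
    rw [S_j]; simp⟩

theorem aW_inj : Function.Injective (aW Q) := by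
  intro s t h
  have h1 : (a Q.P s).1 = (a Q.P t).1 := congrArg (fun u : SW Q => u.1.B) h
  exact a_inj (Subtype.ext h1)

theorem exists_aW (v : SW Q) (h : v.1.B.i ≤ 2 * Q.P.N) : ∃ t, aW Q t = v := by
  obtain ⟨h1, h2, h3⟩ := SW_zero v
  have hS : v.1.B ∈ S Q.P := by
    rcases Nat.eq_zero_or_pos v.1.B.i with h0 | h0
    · exact Or.inl ⟨h0, h1⟩
    · exact Or.inr ⟨h0, h1⟩
  obtain ⟨t, ht⟩ := exists_a (P := Q.P) ⟨v.1.B, hS⟩ h
  refine ⟨t, Subtype.ext (Wx.ext ?_ ?_ ?_)⟩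
  · show (a Q.P t).1 = v.1.B
    rw [ht]
  · exact h2.symm
  · exact h3.symm

theorem boundary_edgeW (u v : SW Q) (hu : u.1.B.i ≤ 2 * Q.P.N) (hv : 2 * Q.P.N < v.1.B.i)
    (hd : (GW Q).dist u.1 v.1 ≤ 2 * Q.KW) :
    2 * Q.P.N ≤ u.1.B.i + (3 * Q.P.p + 1) ∧ v.1.B.i ≤ 2 * Q.P.N + 3 := by
  have hv2 : 0 < v.1.B.i := by omega
  have e : 2 * Q.KW = (Q.r + 1) * (2 * Q.P.K) := by unfold Qm.KW; ring
  rw [e] at hd
  rcases Nat.eq_zero_or_pos u.1.B.i with h | h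
  · exfalso
    have h4 := dist_hub_rootW hv2 v.2
    rw [eq_rtW h u.2, SimpleGraph.dist_comm] at hd
    have h5 := Nat.le_of_mul_le_mul_left (h4.trans hd) (Nat.succ_pos _)
    have h6 := ar5 hv
    omega
  · have hne : u.1 ≠ v.1 := fun h' => by rw [h'] at hu; omega
    have h4 := dist_hub_hubW h u.2 hv2 v.2 hne
    have h5 := Nat.le_of_mul_le_mul_left (h4.trans hd) (Nat.succ_pos _)
    exact ar4 hu hv (by omega)

theorem boundary_leW (A : Finset (SW Q)) (hA : ∀ v, v ∈ A ↔ ∃ t, aW Q t = v) :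
    (edgeBoundary (netGraph (GW Q) Q.KW (SW Q)) (A : Set (SW Q))).encard ≤ CC Q.P := by
  classical
  have hN := Q.P.hN
  have hi : ∀ v ∈ A, v.1.B.i ≤ 2 * Q.P.N := by
    intro v hv
    obtain ⟨t, rfl⟩ := (hA v).1 hv
    show idx Q.P t ≤ 2 * Q.P.N
    unfold idx
    split_ifs <;> omega
  set U : Set (SW Q) := {u | u ∈ A ∧ 2 * Q.P.N ≤ u.1.B.i + (3 * Q.P.p + 1)} with hU
  set W : Set (SW Q) := {v | 2 * Q.P.N < v.1.B.i ∧ v.1.B.i ≤ 2 * Q.P.N + 3} with hW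
  have hsub : edgeBoundary (netGraph (GW Q) Q.KW (SW Q)) (A : Set (SW Q)) ⊆
      (fun p : SW Q × SW Q => s(p.1, p.2)) '' (U ×ˢ W) := by
    rintro e ⟨u, v, hu, hv, hadj, rfl⟩
    have hu' : u ∈ A := hu
    have hv' : v ∉ A := hv
    have h1 : 2 * Q.P.N < v.1.B.i := by
      by_contra h
      exact hv' ((hA v).2 (exists_aW v (by omega)))
    obtain ⟨h2, h3⟩ := boundary_edgeW u v (hi u hu') h1 hadj.2
    exact ⟨(u, v), ⟨⟨hu', h2⟩, ⟨h1, h3⟩⟩, rfl⟩
  have hUc : U.encard ≤ (3 * Q.P.p + 2 : ℕ) := by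
    have := Set.encard_le_encard_of_injOn (s := U)
      (t := ((Finset.Icc (2 * Q.P.N - (3 * Q.P.p + 1)) (2 * Q.P.N) : Finset ℕ) : Set ℕ))
      (f := fun u : SW Q => u.1.B.i)
      (fun u hu => by
        have h1 := hi u hu.1
        have h2 := hu.2
        rw [Finset.mem_coe, Finset.mem_Icc]
        show 2 * Q.P.N - (3 * Q.P.p + 1) ≤ u.1.B.i ∧ u.1.B.i ≤ 2 * Q.P.N
        omega)
      (fun u hu v hv h => by
        obtain ⟨s, rfl⟩ := (hA u).1 hu.1
        obtain ⟨t, rfl⟩ := (hA v).1 hv.1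
        exact Subtype.ext (Wx.ext (Vx.ext h rfl rfl) rfl rfl))
    refine this.trans ?_
    rw [Set.encard_coe_eq_coe_finsetCard, Nat.card_Icc]
    have : 2 * Q.P.N + 1 - (2 * Q.P.N - (3 * Q.P.p + 1)) ≤ 3 * Q.P.p + 2 := by omega
    exact_mod_cast this
  have hWc : W.encard ≤ (3 * Q.P.b ^ (3 * (Q.P.p + 1)) : ℕ) := by
    have := Set.encard_le_encard_of_injOn (s := W)
      (t := ((Finset.Icc (2 * Q.P.N + 1) (2 * Q.P.N + 3) ×ˢ
        Finset.range (Q.P.b ^ (3 * (Q.P.p + 1))) : Finset (ℕ × ℕ)) : Set (ℕ × ℕ)))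
      (f := fun u : SW Q => (u.1.B.i, u.1.B.x))
      (fun v hv => by
        have h1 : v.1.B.x < Q.P.q v.1.B.i * Q.P.n v.1.B.i v.1.B.j := by
          have := hv.1
          rcases v.1.B.hv with h' | h'
          · omega
          · exact h'.2.2.2
        have h2 := hv.1
        have h3 := hv.2
        rw [(SW_zero v).1, Q.P.n_zero, mul_one, Q.P.q_big (by omega)] at h1
        rw [Finset.mem_coe, Finset.mem_product, Finset.mem_Icc, Finset.mem_range]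
        refine ⟨⟨by simp only; omega, by simp only; omega⟩, lt_of_lt_of_le h1 ?_⟩
        apply Nat.pow_le_pow_right Q.P.b_pos
        rw [mul_comm 3]
        exact Nat.mul_le_mul_left _ (by omega))
      (fun u hu v hv h => by
        have h1 : u.1.B.i = v.1.B.i := congrArg Prod.fst h
        have h2 : u.1.B.x = v.1.B.x := congrArg Prod.snd h
        obtain ⟨u1, u2, u3⟩ := SW_zero u
        obtain ⟨v1, v2, v3⟩ := SW_zero v
        exact Subtype.ext (Wx.ext (Vx.ext h1 (by omega) h2) (by omega) (by omega)))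
    rw [Set.encard_coe_eq_coe_finsetCard, Finset.card_product, Finset.card_range,
      Nat.card_Icc] at this
    have e : 2 * Q.P.N + 3 + 1 - (2 * Q.P.N + 1) = 3 := by omega
    rwa [e] at this
  calc _ ≤ _ := Set.encard_le_encard hsub
    _ ≤ (U ×ˢ W).encard := Set.encard_image_le _ _
    _ = U.encard * W.encard := Set.encard_prod
    _ ≤ ((3 * Q.P.p + 2 : ℕ) : ℕ∞) * ((3 * Q.P.b ^ (3 * (Q.P.p + 1)) : ℕ) : ℕ∞) :=
        mul_le_mul' hUc hWc
    _ = _ := by unfold CC; push_cast; rfl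

theorem cheeger_netW :
    cheeger (netGraph (GW Q) Q.KW (SW Q)) ≤
      (CC Q.P : ENNReal) / ((Q.P.N + 2 : ℕ) : ENNReal) := by
  classical
  set A : Finset (SW Q) := Finset.univ.map ⟨aW Q, aW_inj⟩ with hA
  have hmem : ∀ v, v ∈ A ↔ ∃ t, aW Q t = v := by
    intro v
    simp [hA]
  have hcard : A.card = Q.P.N + 2 := by
    rw [hA, Finset.card_map, Finset.card_univ, Fintype.card_fin]
  have hne : A.Nonempty := by
    rw [← Finset.card_pos, hcard]; omega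
  unfold cheeger
  refine (iInf₂_le A hne).trans ?_
  rw [hcard]
  apply ENNReal.div_le_div_right
  exact_mod_cast boundary_leW A hmem

theorem KW_pos : 1 ≤ Q.KW := by
  unfold Qm.KW Pm.K
  exact Nat.mul_pos (by omega) (by omega)

/-- The sharp examples. -/
theorem examplesW (g r : ℕ) (hg : 2 ≤ g) (hr : 1 ≤ r) (c : ENNReal)
    (hc : c * ((r + 1 : ℕ) : ENNReal) + ((r + 1 : ℕ) : ENNReal) + 2 ≤
      ((r + 1 : ℕ) : ENNReal) * (g : ENNReal)) (ε : ENNReal) (hε : 0 < ε) :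
    ∃ (k : ℕ) (V : Type) (G : SimpleGraph V) (S : Set V),
      1 ≤ k ∧ Infinite V ∧ G.Connected ∧ (∀ v, (G.neighborSet v).encard ≤ (g + 1 : ℕ)) ∧
      c ≤ cheeger G ∧ IsNet G k S ∧ cheeger (netGraph G k S) < ε := by
  obtain ⟨b, hb⟩ : ∃ b, b + 1 = g ^ (r + 1) := by
    refine ⟨g ^ (r + 1) - 1, ?_⟩
    have : 0 < g ^ (r + 1) := by positivity
    omega
  have hb2 : 2 ≤ b := by
    have h1 : 2 ^ 2 ≤ g ^ (r + 1) :=
      (Nat.pow_le_pow_left hg 2).trans (Nat.pow_le_pow_right (by omega) (by omega))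
    omega
  obtain ⟨p, hp1, hp3⟩ : ∃ p, 1 ≤ p ∧ b ^ (p + 1) ≤ (b + 1) ^ p :=
    ⟨b * b + 1, by omega, pow_cond b _ (by omega)⟩
  have hlim : Filter.Tendsto (fun n : ℕ =>
      (((3 * p + 2) * (3 * b ^ (3 * (p + 1))) : ℕ) : ENNReal) / (n : ENNReal)) Filter.atTop
      (nhds 0) := by
    have := ENNReal.Tendsto.const_div
      (a := (((3 * p + 2) * (3 * b ^ (3 * (p + 1))) : ℕ) : ENNReal)) (b := ⊤)
      ENNReal.tendsto_nat_nhds_top (Or.inr (ENNReal.natCast_ne_top _))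
    simpa using this
  obtain ⟨n₀, hn₀⟩ := Filter.eventually_atTop.1 (hlim.eventually (gt_mem_nhds hε))
  let P : Pm := ⟨b, p, 0, n₀ + 2 * p + 1, hb2, hp1, Nat.zero_le _, by omega, hp3⟩
  let Q : Qm := ⟨P, g, r, hg, rfl, hb⟩
  refine ⟨Q.KW, Wx Q, GW Q, SW Q, KW_pos, infiniteW, connectedW,
    degree_leW, cheeger_geW c hc, isNetW, ?_⟩
  exact cheeger_netW.trans_lt (hn₀ (n₀ + 2 * p + 1 + 2) (by omega))

theorem sharp (h : ENNReal) (d : ℕ) (hd : h + 3 < d) (ε : ENNReal) (hε : 0 < ε) :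
    ∃ (k : ℕ) (V : Type) (G : SimpleGraph V) (S : Set V),
      1 ≤ k ∧ Infinite V ∧ G.Connected ∧ (∀ v, (G.neighborSet v).encard < d) ∧
      h < cheeger G ∧ IsNet G k S ∧ cheeger (netGraph G k S) < ε := by
  have hh : h ≠ ⊤ := by
    rintro rfl
    simp at hd
  have hreal : h.toReal + 3 < d := by
    have h1 : ENNReal.ofReal (h.toReal + 3) < ENNReal.ofReal d := by
      rw [ENNReal.ofReal_add ENNReal.toReal_nonneg (by norm_num), ENNReal.ofReal_toReal hh,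
        ENNReal.ofReal_natCast]
      simpa using hd
    exact (ENNReal.ofReal_lt_ofReal_iff_of_nonneg (by positivity)).1 h1
  have h0 : 0 ≤ h.toReal := ENNReal.toReal_nonneg
  have hd4 : 4 ≤ d := by
    have : (3 : ℝ) < d := by linarith
    exact_mod_cast this
  obtain ⟨r, hr⟩ := exists_nat_gt (2 / ((d : ℝ) - 3 - h.toReal))
  have hpos : 0 < (d : ℝ) - 3 - h.toReal := by linarith
  set R : ℕ := r + 1 with hR
  have hR1 : (0 : ℝ) < ((R + 1 : ℕ) : ℝ) := by positivity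
  have hr' : 2 / (((R + 1 : ℕ) : ℝ)) < (d : ℝ) - 3 - h.toReal := by
    rw [div_lt_iff₀ hpos] at hr
    rw [div_lt_iff₀ hR1]
    have : (r : ℝ) ≤ ((R + 1 : ℕ) : ℝ) := by
      rw [hR]; push_cast; linarith
    nlinarith
  set cc : ℝ := (d : ℝ) - 3 - 2 / ((R + 1 : ℕ) : ℝ) with hcc
  have hccpos : 0 ≤ cc := by linarith
  obtain ⟨g, hg⟩ : ∃ g, d = g + 2 := ⟨d - 2, by omega⟩
  obtain ⟨k, V, G, S, h1, h2, h3, h4, h5, h6, h7⟩ :=
    examplesW g R (by omega) (by omega) (ENNReal.ofReal cc) (by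
      apply le_of_eq
      have e1 : ((R + 1 : ℕ) : ENNReal) = ENNReal.ofReal ((R + 1 : ℕ) : ℝ) :=
        (ENNReal.ofReal_natCast _).symm
      have e2 : ((g : ℕ) : ENNReal) = ENNReal.ofReal (g : ℝ) := (ENNReal.ofReal_natCast _).symm
      have e3 : (2 : ENNReal) = ENNReal.ofReal 2 := by simp
      rw [e1, e2, e3, ← ENNReal.ofReal_mul hccpos, ← ENNReal.ofReal_mul hR1.le,
        ← ENNReal.ofReal_add (by positivity) hR1.le,
        ← ENNReal.ofReal_add (by positivity) (by norm_num)]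
      congr 1
      rw [hcc, hg]
      field_simp
      push_cast
      ring) ε hε
  refine ⟨k, V, G, S, h1, h2, h3, ?_, ?_, h6, h7⟩
  · intro v
    refine (h4 v).trans_lt ?_
    rw [hg]
    exact_mod_cast Nat.lt_succ_self (g + 1)
  · refine lt_of_lt_of_le ?_ h5
    rw [← ENNReal.ofReal_toReal hh]
    exact (ENNReal.ofReal_lt_ofReal_iff_of_nonneg h0).2 (by linarith)

end Pool.Agent.Y729.HT
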